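import Pool.Agent.CLB.Lem
import Pool.Agent.CLA.In1
import Pool.Agent.CLA.Tw

/-!
# Transport of tame structures and of matrices over rings: definitions
-/

set_option autoImplicit false

namespace Pool.Agent.CLB

open Finset Classical
open Pool.Agent.CPT hiding Tm eval Accepts

variable {A I K : Type} [Fintype A] [Fintype I] [Fintype K] [Group K] [MulAction K A]

/-- the function `w'` on `Z'` is locally the transport of the function `w` on `Z` -/
def Cmp (F : Fr A I K) (s : ℕ) (X : Finset I) (k : K) {Z Z' : Finset (HF A)} {r : ℕ}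
    (w : (Fin r → {z : HF A // z ∈ Z}) → ℕ) (w' : (Fin r → {z : HF A // z ∈ Z'}) → ℕ) : Prop :=
  ∀ (x : Fin r → {z : HF A // z ∈ Z}) (x' : Fin r → {z : HF A // z ∈ Z'})
    (W : Fin r → Finset I) (k' : K), (∀ j, (W j).card ≤ s) →
    (∀ j, Supp F.pl F.G (W j) (x j).1) → k' ∈ F.Th (X ∪ univ.biUnion W) → Agr F.pl X k k' →
    (∀ j, (x' j).1 = F.T s (x j).1 (W j) k') → w' x' = w x

/-- the transports of structures which are tame (for `N`) are isomorphic, for all families `Z` of
objects with supports of size at most `s` and all `X` of size at most `L - (r + c) s` -/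
def IsoP (F : Fr A I K) (s c N : ℕ) : Prop :=
  ∀ (X : Finset I) (k : K) (Z : Finset (HF A)) (r : ℕ)
    (w : (Fin r → {z : HF A // z ∈ Z}) → ℕ)
    (w' : (Fin r → {z : HF A // z ∈ F.TF s Z X k}) → ℕ),
    k ∈ F.Th X → X.card + (r + c) * s ≤ F.L → (∀ y ∈ Z, HS F.pl F.G s y) →
    (∀ g ∈ F.G, Trv F.pl X g → ∀ y ∈ Z, g • y ∈ Z) → Cmp F s X k w w' →
    (Tame N w ∨ Tame N w') →
    ∃ e : {z : HF A // z ∈ Z} ≃ {z : HF A // z ∈ F.TF s Z X k}, ∀ x, w' (fun j => e (x j)) = w x

/-- the transport of the family `Z` is intertwined over the ring `R`, for all families `Z` of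
objects with supports of size at most `s` and all `X` of size at most `L - c s` -/
def IntR (F : Fr A I K) (s c : ℕ) (R : Type) [Ring R] : Prop :=
  ∀ (X : Finset I) (k : K) (Z : Finset (HF A)), k ∈ F.Th X → X.card + c * s ≤ F.L →
    (∀ y ∈ Z, HS F.pl F.G s y) → (∀ g ∈ F.G, Trv F.pl X g → ∀ y ∈ Z, g • y ∈ Z) →
    ∃ (P : Matrix {z : HF A // z ∈ F.TF s Z X k} {z : HF A // z ∈ Z} R)
      (Q : Matrix {z : HF A // z ∈ Z} {z : HF A // z ∈ F.TF s Z X k} R), P * Q = 1 ∧ Q * P = 1 ∧
      ∀ (M : Matrix {z : HF A // z ∈ Z} {z : HF A // z ∈ Z} R)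
        (N : Matrix {z : HF A // z ∈ F.TF s Z X k} {z : HF A // z ∈ F.TF s Z X k} R),
        CLA.Trm F s X k Z M N → P * M = N * P

theorem forall2_ofFn {α β : Type} {R : α → β → Prop} {r : ℕ} {f : Fin r → α} {g : Fin r → β}
    (h : ∀ j, R (f j) (g j)) : List.Forall₂ R (List.ofFn f) (List.ofFn g) := by
  induction r with
  | zero =>
    rw [List.ofFn_zero, List.ofFn_zero]
    exact List.Forall₂.nil
  | succ r ih =>
    rw [List.ofFn_succ, List.ofFn_succ]
    exact List.Forall₂.cons (h 0) (ih fun j => h j.succ)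

theorem forall2_append {α β : Type} {R : α → β → Prop} {l1 l2 : List α} {m1 m2 : List β}
    (h1 : List.Forall₂ R l1 m1) (h2 : List.Forall₂ R l2 m2) :
    List.Forall₂ R (l1 ++ l2) (m1 ++ m2) := by
  induction h1 with
  | nil => exact h2
  | cons h _ ih => exact List.Forall₂.cons h ih

omit [Fintype I] in
theorem card_biUnion_le' {r s : ℕ} {W : Fin r → Finset I} (h : ∀ j, (W j).card ≤ s) :
    (univ.biUnion W).card ≤ r * s := by
  refine card_biUnion_le.trans ?_
  calc ∑ j : Fin r, (W j).card ≤ ∑ _j : Fin r, s := Finset.sum_le_sum fun j _ => h j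
    _ = r * s := by rw [sum_const, card_univ, Fintype.card_fin, smul_eq_mul]

end Pool.Agent.CLB
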