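import Pool.Agent.CLB.Wld
import Pool.Agent.CLA.Frm
import Pool.Agent.CPT.Ab

/-!
# The sets of local isomorphisms for the frame of the graphs

`Ah n 0` is the group of order two generated by `2 ^ (n - 1)`, the twist. There is a chain with values
in `Ah n h`, equal to a given local isomorphism on `D`, whose divergence has values in `Ah n 0`. The
local isomorphisms which differ from it by chains with values in `Ah n 0 = 2 ^ h Ah n h` form a set
with the properties of `GoodW` for `e = 2 ^ h`.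
-/

set_option autoImplicit false

namespace Pool.Agent.CLB

open Finset Classical
open Pool.Agent.CPT hiding Tm eval Accepts
open Pool.Agent.CLA hiding Tm eval Accepts

variable {l n : ℕ}

theorem ah_le (n h : ℕ) : Ah n 0 ≤ Ah n h := by
  rw [Ah, AddSubgroup.zmultiples_le]
  exact half_mem n h

theorem ah_div {n h : ℕ} (hn : h + 1 ≤ n) {a : Rn n} (ha : a ∈ Ah n 0) :
    ∃ u ∈ Ah n h, 2 ^ h • u = a ∧ (a = 0 → u = 0) := by
  by_cases h0 : a = 0
  · exact ⟨0, (Ah n h).zero_mem, by rw [smul_zero, h0], fun _ => rfl⟩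
  · obtain ⟨m, hm⟩ := AddSubgroup.mem_zmultiples_iff.1 ha
    refine ⟨m • (2 : Rn n) ^ (n - 1 - h), AddSubgroup.mem_zmultiples_iff.2 ⟨m, rfl⟩, ?_,
      fun h1 => absurd h1 h0⟩
    rw [← hm, smul_comm, nsmul_eq_mul]
    congr 1
    push_cast
    rw [← pow_add]
    congr 1
    omega

/-- the elements of `Ah n h` annihilated by `2 ^ h` -/
def Tor (n h : ℕ) : AddSubgroup (Rn n) where
  carrier := {a | a ∈ Ah n h ∧ 2 ^ h • a = 0}
  zero_mem' := ⟨(Ah n h).zero_mem, smul_zero _⟩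
  add_mem' := fun ha hb => ⟨(Ah n h).add_mem ha.1 hb.1, by rw [smul_add, ha.2, hb.2, add_zero]⟩
  neg_mem' := fun ha => ⟨(Ah n h).neg_mem ha.1, by rw [smul_neg, ha.2, neg_zero]⟩

/-- the divergence of a flow with values in a subgroup -/
theorem dv_coe (S : AddSubgroup (Rn n)) (z : Ed l → S) (v : Vx l) :
    dv (fun e => ((z e : S) : Rn n)) v = ((dv z v : S) : Rn n) := dv_map S.subtype z v

theorem exists_not_sub {Y : Finset (Fin l)} (hY : Y.card < l) : ∃ v : Vx l, ¬ co v ⊆ Y := by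
  obtain ⟨y, hy⟩ : ∃ y, y ∉ Y := by
    by_contra hcon
    push Not at hcon
    have h4 : Y = Finset.univ := Finset.eq_univ_iff_forall.2 hcon
    rw [h4, Finset.card_univ, Fintype.card_fin] at hY
    exact lt_irrefl _ hY
  exact ⟨fun _ => y, fun hc => hy (hc (Finset.mem_image.2 ⟨0, Finset.mem_univ _, rfl⟩))⟩

/-- the chain -/
theorem kbar (v0 : Vx l) {h : ℕ} {D : Finset (Fin l)} (hD : D.card < l) {kD : KK l n}
    (hk : kD ∈ Tht v0 n h D) : ∃ z : Ed l → Rn n, (∀ e, z e ∈ Ah n h) ∧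
      (∀ v, dv z v ∈ Ah n 0) ∧ (∀ v, co v ⊆ D → dv z v = tw n v0 v) ∧
      ∀ e, EdX D e → kD.z e = z e := by
  obtain ⟨h1, h2, h3⟩ := hk
  obtain ⟨v1, hv1⟩ := exists_not_sub hD
  have hmem := fun v => dv_mem h2 v
  set S : Rn n := ∑ w ∈ Finset.univ.filter (fun w : Vx l => co w ⊆ D), dv kD.z w with hS
  have hS0 : S ∈ Ah n 0 := by
    refine (Ah n 0).sum_mem fun w hw => ?_
    rw [h3 w (Finset.mem_filter.1 hw).2]
    exact tw_mem v0 0 w
  let f : Vx l → Ah n h := fun v => if co v ⊆ D then 0 else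
    -⟨dv kD.z v, hmem v⟩ - if v = v1 then ⟨S, ah_le n h hS0⟩ else 0
  have hfc : ∀ v, ((f v : Ah n h) : Rn n) = if co v ⊆ D then 0 else
      - dv kD.z v - if v = v1 then S else 0 := by
    intro v
    by_cases hv : co v ⊆ D
    · rw [if_pos hv]
      show (((if co v ⊆ D then 0 else _ : Ah n h)) : Rn n) = 0
      rw [if_pos hv]
      rfl
    · rw [if_neg hv]
      show (((if co v ⊆ D then 0 else
        -⟨dv kD.z v, hmem v⟩ - if v = v1 then ⟨S, ah_le n h hS0⟩ else 0 : Ah n h)) : Rn n) = _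
      rw [if_neg hv]
      by_cases h4 : v = v1
      · rw [if_pos h4, if_pos h4]
        rfl
      · rw [if_neg h4, if_neg h4]
        rfl
  obtain ⟨zb, hz1, hz2⟩ := flow (M := Ah n h) (X := D) f (fun v hv => if_pos hv) (by
    apply Subtype.ext
    rw [AddSubgroup.val_finsetSum]
    show ∑ v, ((f v : Ah n h) : Rn n) = 0
    simp only [hfc]
    rw [← Finset.sum_filter_add_sum_filter_not Finset.univ (fun w : Vx l => co w ⊆ D)]
    rw [Finset.sum_congr rfl (g := fun _ => (0 : Rn n))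
      (fun v hv => if_pos (Finset.mem_filter.1 hv).2), Finset.sum_const_zero, zero_add]
    rw [Finset.sum_congr rfl (g := fun v => - dv kD.z v - if v = v1 then S else 0)
      (fun v hv => if_neg (Finset.mem_filter.1 hv).2), Finset.sum_sub_distrib,
      Finset.sum_neg_distrib, Finset.sum_ite_eq']
    rw [if_pos (show v1 ∈ Finset.univ.filter (fun w : Vx l => ¬ co w ⊆ D) from
        Finset.mem_filter.2 ⟨Finset.mem_univ _, hv1⟩)]
    have h5 := sum_dv kD.z
    rw [← Finset.sum_filter_add_sum_filter_not Finset.univ (fun w : Vx l => co w ⊆ D)] at h5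
    rw [← hS] at h5
    linear_combination -h5)
  have hz3 : ∀ v, dv (kD.z + fun e => ((zb e : Ah n h) : Rn n)) v =
      dv kD.z v + if co v ⊆ D then 0 else - dv kD.z v - if v = v1 then S else 0 := by
    intro v
    rw [dv_add, dv_coe, hz2 v, hfc v]
  refine ⟨kD.z + fun e => ((zb e : Ah n h) : Rn n), fun e => (Ah n h).add_mem (h2 e) (zb e).2,
    fun v => ?_, fun v hv => ?_, fun e he => ?_⟩
  · rw [hz3 v]
    by_cases hv : co v ⊆ D
    · rw [if_pos hv, add_zero, h3 v hv]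
      exact tw_mem v0 0 v
    · rw [if_neg hv]
      have h6 : dv kD.z v + (- dv kD.z v - if v = v1 then S else 0) =
          - if v = v1 then S else 0 := by ring
      rw [h6]
      refine (Ah n 0).neg_mem ?_
      split_ifs
      · exact hS0
      · exact (Ah n 0).zero_mem
  · rw [hz3 v, if_pos hv, add_zero, h3 v hv]
  · rw [Pi.add_apply, flip_off hz1 he]
    exact (add_zero _).symm

theorem edX_mono {D Y : Finset (Fin l)} (h : D ⊆ Y) {e : Ed l} (he : EdX D e) : EdX Y e :=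
  fun h1 => (he h1).imp fun _ h2 => ⟨h2.1, h2.2.trans h⟩

theorem flip_pow {g : KK l n} (hg : g.g = 1) (m : ℕ) : (g ^ m).z = m • g.z ∧ (g ^ m).g = 1 := by
  induction m with
  | zero =>
    rw [pow_zero, zero_smul]
    exact ⟨rfl, rfl⟩
  | succ m ih =>
    rw [pow_succ, mul_z, mul_g, ih.1, ih.2, hg, one_mul, succ_nsmul]
    exact ⟨rfl, rfl⟩

/-- existence of extensions -/
theorem gw_ex (v0 : Vx l) {h : ℕ} {D Y : Finset (Fin l)} (hDY : D ⊆ Y) (hY : Y.card < l)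
    {z : Ed l → Rn n} (hz1 : ∀ e, z e ∈ Ah n h) (hz2 : ∀ v, dv z v ∈ Ah n 0)
    (hz3 : ∀ v, co v ⊆ D → dv z v = tw n v0 v) : ∃ c ∈ Tht v0 n h Y,
      (c.g = 1 ∧ ∀ e, c.z e - z e ∈ Ah n 0) ∧ ∀ e, EdX D e → c.z e = z e := by
  obtain ⟨v2, hv2⟩ := exists_not_sub hY
  obtain ⟨z2, h1, h2⟩ := flow' (M := Ah n 0) hDY hv2
    (fun v => ⟨tw n v0 v - dv z v, (Ah n 0).sub_mem (tw_mem v0 0 v) (hz2 v)⟩)
    (fun v hv => Subtype.ext (by
      change tw n v0 v - dv z v = 0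
      rw [hz3 v hv, sub_self]))
  refine ⟨mkK (z + fun e => ((z2 e : Ah n 0) : Rn n)) 1, ⟨mkK_g _ _, fun e => ?_, fun v hv => ?_⟩,
    ⟨mkK_g _ _, fun e => ?_⟩, fun e he => ?_⟩
  · rw [mkK_z]
    exact (Ah n h).add_mem (hz1 e) (ah_le n h (z2 e).2)
  · rw [mkK_z, dv_add, dv_coe, h2 v hv]
    exact add_sub_cancel _ _
  · rw [mkK_z, Pi.add_apply, add_sub_cancel_left]
    exact (z2 e).2
  · rw [mkK_z, Pi.add_apply, flip_off h1 he]
    exact add_zero _

/-- homogeneity -/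
theorem gw_hom (v0 : Vx l) {h : ℕ} (hn : h + 1 ≤ n) {D Y : Finset (Fin l)} (hDY : D ⊆ Y)
    {c c' : KK l n} (hc : c ∈ Tht v0 n h Y) (hc' : c' ∈ Tht v0 n h Y)
    (hd : ∀ e, (c'.z - c.z) e ∈ Ah n 0) (hD : ∀ e, EdX D e → c.z e = c'.z e) :
    ∃ g ∈ GZ l n h, (∀ e, EdX D e → g.z e = 0) ∧
      ∀ e, EdX Y e → c'.z e = (c * g ^ 2 ^ h).z e := by
  obtain ⟨h1, h2, h3⟩ := hc
  obtain ⟨h4, h5, h6⟩ := hc'
  have hdv : ∀ v, dv (c'.z - c.z) v ∈ Ah n 0 := fun v => dv_mem hd v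
  obtain ⟨z3, h7, h8⟩ := flow (M := Ah n 0) (X := Y)
    (fun v => ⟨dv (c'.z - c.z) v, hdv v⟩)
    (fun v hv => Subtype.ext (by
      change dv (c'.z - c.z) v = 0
      rw [dv_sub, h3 v hv, h6 v hv, sub_self]))
    (by
      refine Subtype.ext ?_
      rw [AddSubgroup.val_finsetSum]
      exact sum_dv (c'.z - c.z))
  set d : Ed l → Rn n := c'.z - c.z - fun e => ((z3 e : Ah n 0) : Rn n) with hdd
  have hdm : ∀ e, d e ∈ Ah n 0 := fun e => (Ah n 0).sub_mem (hd e) (z3 e).2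
  have hdd0 : ∀ v, dv d v = 0 := by
    intro v
    rw [hdd, dv_sub, dv_coe, h8 v]
    exact sub_self _
  have hdD : ∀ e, EdX D e → d e = 0 := by
    intro e he
    rw [hdd, Pi.sub_apply, Pi.sub_apply, hD e he, sub_self, flip_off h7 (edX_mono hDY he)]
    exact sub_self _
  choose u hu1 hu2 hu3 using fun e => ah_div hn (hdm e)
  have huv : ∀ v, dv u v ∈ Tor n h := by
    intro v
    refine ⟨dv_mem hu1 v, ?_⟩
    have h9 := dv_map (nsmulAddMonoidHom (2 ^ h) : Rn n →+ Rn n) u v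
    have h10 : (fun e => (nsmulAddMonoidHom (2 ^ h) : Rn n →+ Rn n) (u e)) = d := funext hu2
    rw [h10, hdd0 v] at h9
    exact h9.symm
  obtain ⟨z4, h11, h12⟩ := flow (M := Tor n h) (X := D)
    (fun v => ⟨dv u v, huv v⟩)
    (fun v hv => Subtype.ext (by
      change dv u v = 0
      have h13 : dv u v = dv (0 : Ed l → Rn n) v := by
        refine dv_congr fun e he => ?_
        exact hu3 e (hdD e (fun _ => ⟨v, he, hv⟩))
      rw [h13, dv_zero]))
    (by
      refine Subtype.ext ?_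
      rw [AddSubgroup.val_finsetSum]
      exact sum_dv u)
  have hg : (mkK (u - fun e => ((z4 e : Tor n h) : Rn n)) (1 : Sq l → Hb n)).g = 1 := mkK_g _ _
  refine ⟨mkK (u - fun e => ((z4 e : Tor n h) : Rn n)) 1, ⟨hg, fun e => ?_, fun v => ?_⟩,
    fun e he => ?_, fun e he => ?_⟩
  · rw [mkK_z]
    exact (Ah n h).sub_mem (hu1 e) (z4 e).2.1
  · rw [mkK_z, dv_sub, dv_coe, h12 v]
    exact sub_self _
  · rw [mkK_z, Pi.sub_apply, flip_off h11 he, hu3 e (hdD e he)]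
    exact sub_self _
  · rw [mul_z, (flip_pow hg _).1, mkK_z, smul_sub, Pi.add_apply, Pi.sub_apply, Pi.smul_apply,
      Pi.smul_apply, hu2 e, (z4 e).2.2, sub_zero, hdd, Pi.sub_apply, Pi.sub_apply, flip_off h7 he]
    change c'.z e = c.z e + (c'.z e - c.z e - 0)
    rw [sub_zero, add_sub_cancel]

theorem ab_agr' {A B I K : Type} [Group K] [MulAction K A] (pl : A → Finset I)
    (X : Finset I) (k k' : K) :
    Agr (A := AB A B) (AB.elim pl (fun _ => ∅)) X k k' ↔ Agr pl X k k' := by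
  constructor
  · intro h a ha
    exact AB.l_inj (h (AB.l a) ha)
  · intro h x hx
    rcases AB.cases x with ⟨a, rfl⟩ | ⟨b, rfl⟩
    · rw [AB.smul_l, AB.smul_l, h a hx]
    · rfl

/-- the sets for the frame of the graphs -/
theorem goodW (v0 : Vx l) (n h L : ℕ) (hL : L < l) (hn : h + 1 ≤ n) (B : Type) [Fintype B]
    (D : Finset (Fin l)) (kD : KK l n) (hD : D.card ≤ L) (hkD : kD ∈ Tht v0 n h D) :
    Nonempty (GoodW ((frm v0 n h L hL).ext B) D kD (2 ^ h)) := by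
  obtain ⟨z, hz1, hz2, hz3, hz4⟩ := kbar v0 (lt_of_le_of_lt hD hL) hkD
  refine ⟨⟨{c | c.g = 1 ∧ ∀ e, c.z e - z e ∈ Ah n 0}, ?_, ?_⟩⟩
  · intro Y hDY hY
    obtain ⟨c, hc1, hc2, hc3⟩ := gw_ex v0 hDY (lt_of_le_of_lt hY hL) hz1 hz2 hz3
    refine ⟨c, hc1, hc2, ?_⟩
    refine (ab_agr' _ _ _ _).2 ((flip_agr hkD.1 hc1.1).2 fun e he => ?_)
    rw [hz4 e he, hc3 e he]
  · intro Y c c' hDY hY hc hc' hW hW' hA
    have hc1 : c ∈ Tht v0 n h Y := hc
    have hc1' : c' ∈ Tht v0 n h Y := hc'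
    have hA' := (flip_agr hc1.1 hc1'.1).1 ((ab_agr' _ _ _ _).1 hA)
    obtain ⟨g, hg, hg1, hg2⟩ := gw_hom v0 hn hDY hc1 hc1' (fun e => by
      have h1 := (Ah n 0).sub_mem (hW'.2 e) (hW.2 e)
      rwa [sub_sub_sub_cancel_right] at h1) hA'
    have hg' : g = mkK g.z 1 := KK.ext (mkK_z _ _).symm (by rw [mkK_g]; exact hg.1)
    refine ⟨g, hg, ?_, ?_⟩
    · have h1 : Trv (pl (n := n)) D g := by
        rw [hg']
        exact flip_trv.2 hg1
      intro x hx
      rcases AB.cases x with ⟨a, rfl⟩ | ⟨b, rfl⟩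
      · rw [AB.smul_l, h1 a hx]
      · rfl
    · refine (ab_agr' _ _ _ _).2 ((flip_agr hc1'.1 ?_).2 hg2)
      rw [mul_g, hc1.1, one_mul, (flip_pow hg.1 _).2]

end Pool.Agent.CLB
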