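import Pool.Agent.CLA.In5
import Pool.Agent.CLB.Iso

/-!
# Intertwiners over commutative rings in which two is nilpotent
-/

set_option autoImplicit false
set_option linter.unusedSectionVars false

namespace Pool.Agent.CLB

open Finset Classical Matrix
open Pool.Agent.CPT
open Pool.Agent.CLA hiding Tm eval Accepts

theorem pow_one_add {S : Type} [Ring S] (y : S) (i : ℕ) :
    ∃ y' : S, (1 + 2 • y) ^ (2 ^ i) = 1 + (2 ^ (i + 1)) • y' := by
  induction i with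
  | zero => exact ⟨y, by simp⟩
  | succ i ih =>
    obtain ⟨y', hy⟩ := ih
    refine ⟨y' + (2 ^ i) • (y' * y'), ?_⟩
    rw [pow_succ 2 i, pow_mul, hy, sq, add_mul, mul_add, mul_add, one_mul, mul_one, one_mul,
      smul_mul_smul_comm, smul_add, smul_smul]
    have h1 : 2 ^ (i + 1 + 1) * 2 ^ i = 2 ^ (i + 1) * 2 ^ (i + 1) := by
      rw [← pow_add, ← pow_add]
      congr 1
      omega
    have h2 : (2 ^ (i + 1 + 1)) • y' = (2 ^ (i + 1)) • y' + (2 ^ (i + 1)) • y' := by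
      rw [← add_smul]
      congr 1
      rw [pow_succ 2 (i + 1), mul_two]
    rw [h1, h2]
    abel

variable {A I K : Type} [Fintype A] [Fintype I] [Fintype K] [Group K] [MulAction K A]
variable {F : Fr A I K} {s : ℕ} {R : Type} [CommRing R] {X : Finset I} {k : K} {B : ℕ}
  {Z : Finset (HF A)}

theorem map_mat {R' : Type} [CommRing R'] (f : R →+* R') (w : Ms F R X k B) :
    (w.map f).mat s Z = (w.mat s Z).map f := by
  ext y' y
  show (w.map f).S s y'.1 y.1 = f (w.S s y'.1 y.1)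
  unfold Ms.S
  rw [map_sum]
  rfl

/-- the Gram matrix is unipotent modulo two -/
theorem gram_two (w : Ms F R X k B) (hB : B ≤ F.L) (hZ : ∀ y ∈ Z, HS F.pl F.G s y)
    (hm : ∑ c, w.w X c = 1)
    (hG : ∀ g ∈ F.G, Trv F.pl X g → ∀ y ∈ Z, g • y ∈ Z)
    (hc : ∀ g ∈ F.G, ∀ h ∈ F.G, g * h = h * g) {a : ℕ} (ha : ∀ g ∈ F.G, g ^ (2 ^ a) = 1)
    (h9 : 9 * s ≤ F.L) (hX : X.card + 6 * s ≤ B) :
    ∃ Y : Matrix {z // z ∈ Z} {z // z ∈ Z} R,
      ((w.mat s Z)ᵀ * w.mat s Z) ^ (2 ^ a) = 1 + 2 • Y := by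
  set f := Ideal.Quotient.mk (Ideal.span {(2 : R)}) with hf
  have h2 : (2 : R ⧸ Ideal.span {(2 : R)}) = 0 := by
    have h3 : f 2 = 0 := Ideal.Quotient.eq_zero_iff_mem.2 (Ideal.mem_span_singleton_self _)
    rwa [map_ofNat] at h3
  have h4 := (w.map f).ptp_pow hB hZ h2 (by
    show ∑ c, f (w.w X c) = 1
    rw [← map_sum, hm, map_one]) hG hc ha h9 hX
  rw [map_mat, ← Matrix.transpose_map, ← Matrix.map_mul] at h4
  have h5 : f.mapMatrix (((w.mat s Z)ᵀ * w.mat s Z) ^ (2 ^ a)) = 1 := by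
    rw [map_pow]
    exact h4
  obtain ⟨E, hE⟩ : ∃ E : Matrix {z // z ∈ Z} {z // z ∈ Z} R,
      E = ((w.mat s Z)ᵀ * w.mat s Z) ^ (2 ^ a) := ⟨_, rfl⟩
  rw [← hE] at h5 ⊢
  have h6 : ∀ z y : {z // z ∈ Z}, ∃ c : R,
      E z y = (1 : Matrix {z // z ∈ Z} {z // z ∈ Z} R) z y + 2 * c := by
    intro z y
    have h7 : f (E z y) = f ((1 : Matrix {z // z ∈ Z} {z // z ∈ Z} R) z y) := by
      have h8 := congrFun (congrFun h5 z) y
      have h9 : f.mapMatrix (1 : Matrix {z // z ∈ Z} {z // z ∈ Z} R) = 1 := map_one _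
      have h10 := congrFun (congrFun h9 z) y
      exact h8.trans h10.symm
    have h11 := Ideal.Quotient.eq.1 h7
    obtain ⟨c, hc⟩ := Ideal.mem_span_singleton.1 h11
    exact ⟨c, by rw [← hc]; ring⟩
  choose Y hY using h6
  refine ⟨Matrix.of Y, ?_⟩
  ext z y
  rw [hY z y, Matrix.add_apply, Matrix.smul_apply, nsmul_eq_mul]
  simp

/-- intertwiners over rings in which two is nilpotent -/
theorem int_nil (w : Ms F R X k B) (hB : B ≤ F.L) (hZ : ∀ y ∈ Z, HS F.pl F.G s y)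
    (hk : k ∈ F.Th X) {m : ℕ} (h2 : (2 : R) ^ m = 0) (hm : ∑ c, w.w X c = 1)
    (hG : ∀ g ∈ F.G, Trv F.pl X g → ∀ y ∈ Z, g • y ∈ Z)
    (hc : ∀ g ∈ F.G, ∀ h ∈ F.G, g * h = h * g) {a : ℕ} (ha : ∀ g ∈ F.G, g ^ (2 ^ a) = 1)
    (h9 : 9 * s ≤ F.L) (hX : X.card + 6 * s ≤ B) :
    ∃ (P : Matrix {z // z ∈ F.TF s Z X k} {z // z ∈ Z} R)
      (Q : Matrix {z // z ∈ Z} {z // z ∈ F.TF s Z X k} R), P * Q = 1 ∧ Q * P = 1 ∧
      ∀ M N, Trm F s X k Z M N → P * M = N * P := by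
  obtain ⟨Y, hY⟩ := gram_two w hB hZ hm hG hc ha h9 hX
  obtain ⟨Y', hY'⟩ := pow_one_add Y m
  have h0 : (2 ^ (m + 1)) • Y' = 0 := by
    ext z y
    rw [Matrix.smul_apply, nsmul_eq_mul, Nat.cast_pow, Nat.cast_ofNat, pow_succ, h2, zero_mul,
      zero_mul]
    rfl
  have h1 : ((w.mat s Z)ᵀ * w.mat s Z) ^ (2 ^ a * 2 ^ m) = 1 := by
    rw [pow_mul, hY, hY', h0, add_zero]
  have h3 : (((w.mat s Z)ᵀ * w.mat s Z) ^ (2 ^ a * 2 ^ m - 1) * (w.mat s Z)ᵀ) *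
      w.mat s Z = 1 := by
    rw [Matrix.mul_assoc, ← pow_succ]
    have : 2 ^ a * 2 ^ m - 1 + 1 = 2 ^ a * 2 ^ m :=
      Nat.sub_add_cancel (Nat.mul_pos (Nat.two_pow_pos a) (Nat.two_pow_pos m))
    rw [this, h1]
  refine ⟨w.mat s Z, _, ?_, h3, fun M N h => w.intertw hB hZ hG h9 hX h⟩
  have hcard : Fintype.card {z // z ∈ Z} = Fintype.card {z // z ∈ F.TF s Z X k} := by
    rw [Fintype.card_coe, Fintype.card_coe]
    exact (F.card_TF s hZ hG (by omega) (by omega) hk).symm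
  exact (Matrix.mul_eq_one_comm_of_equiv (Fintype.equivOfCardEq hcard)).1 h3

end Pool.Agent.CLB
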