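import Pool.Agent.CLB.InU
import Pool.Agent.CLB.InN

/-!
# Intertwiners over mild rings

A commutative ring with `2 ^ t = 2 ^ (t + 1) u` is the product of a ring in which two is invertible
and a ring with `2 ^ t = 0`. Intertwiners over the centre of a ring are intertwiners over the ring.
-/

set_option autoImplicit false
set_option linter.unusedSectionVars false

namespace Pool.Agent.CLB

open Finset Classical Matrix
open Pool.Agent.CPT hiding Tm eval Accepts
open Pool.Agent.CLA hiding Tm eval Accepts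

variable {A I K : Type} [Fintype A] [Fintype I] [Fintype K] [Group K] [MulAction K A]
variable {F : Fr A I K} {s : ℕ} {X : Finset I} {k : K} {Z : Finset (HF A)}

/-- there are intertwiners for the family `Z` -/
def IntS (F : Fr A I K) (s : ℕ) (X : Finset I) (k : K) (Z : Finset (HF A)) (R : Type) [Ring R] :
    Prop :=
  ∃ (P : Matrix {z : HF A // z ∈ F.TF s Z X k} {z : HF A // z ∈ Z} R)
    (Q : Matrix {z : HF A // z ∈ Z} {z : HF A // z ∈ F.TF s Z X k} R), P * Q = 1 ∧ Q * P = 1 ∧
    ∀ (M : Matrix {z : HF A // z ∈ Z} {z : HF A // z ∈ Z} R)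
      (N : Matrix {z : HF A // z ∈ F.TF s Z X k} {z : HF A // z ∈ F.TF s Z X k} R),
      Trm F s X k Z M N → P * M = N * P

theorem trm_map {R R' : Type} (f : R → R')
    {M : Matrix {z : HF A // z ∈ Z} {z : HF A // z ∈ Z} R}
    {N : Matrix {z : HF A // z ∈ F.TF s Z X k} {z : HF A // z ∈ F.TF s Z X k} R}
    (h : Trm F s X k Z M N) : Trm F s X k Z (M.map f) (N.map f) := by
  intro x y Yx Yy h1 h2 h3 h4 k' h5 h6 x' y' h7 h8
  show f (N x' y') = f (M x y)
  rw [h x y Yx Yy h1 h2 h3 h4 k' h5 h6 x' y' h7 h8]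

/-- products -/
theorem intS_prod {R R1 R2 : Type} [Ring R] [Ring R1] [Ring R2] (p1 : R →+* R1) (p2 : R →+* R2)
    (hi : ∀ x y, p1 x = p1 y → p2 x = p2 y → x = y) (hs : ∀ a b, ∃ x, p1 x = a ∧ p2 x = b)
    (h1 : IntS F s X k Z R1) (h2 : IntS F s X k Z R2) : IntS F s X k Z R := by
  obtain ⟨P1, Q1, a1, b1, c1⟩ := h1
  obtain ⟨P2, Q2, a2, b2, c2⟩ := h2
  choose g hg1 hg2 using hs
  have key : ∀ {m n : Type} (U V : Matrix m n R), U.map p1 = V.map p1 → U.map p2 = V.map p2 →
      U = V := by
    intro m n U V e1 e2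
    ext i j
    exact hi _ _ (congrFun (congrFun e1 i) j) (congrFun (congrFun e2 i) j)
  have hm1 : ∀ {m n : Type} (U : Matrix m n R1) (V : Matrix m n R2),
      (Matrix.of fun i j => g (U i j) (V i j)).map p1 = U := by
    intro m n U V
    ext i j
    exact hg1 _ _
  have hm2 : ∀ {m n : Type} (U : Matrix m n R1) (V : Matrix m n R2),
      (Matrix.of fun i j => g (U i j) (V i j)).map p2 = V := by
    intro m n U V
    ext i j
    exact hg2 _ _
  have ho1 : ∀ {m : Type} [Fintype m] [DecidableEq m], (1 : Matrix m m R).map p1 = 1 := by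
    intro m _ _
    exact Matrix.map_one p1 (map_zero _) (map_one _)
  have ho2 : ∀ {m : Type} [Fintype m] [DecidableEq m], (1 : Matrix m m R).map p2 = 1 := by
    intro m _ _
    exact Matrix.map_one p2 (map_zero _) (map_one _)
  refine ⟨Matrix.of fun i j => g (P1 i j) (P2 i j), Matrix.of fun i j => g (Q1 i j) (Q2 i j),
    ?_, ?_, fun M N h => ?_⟩
  · apply key
    · rw [Matrix.map_mul, hm1, hm1, a1, ho1]
    · rw [Matrix.map_mul, hm2, hm2, a2, ho2]
  · apply key
    · rw [Matrix.map_mul, hm1, hm1, b1, ho1]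
    · rw [Matrix.map_mul, hm2, hm2, b2, ho2]
  · apply key
    · rw [Matrix.map_mul, Matrix.map_mul, hm1]
      exact c1 _ _ (trm_map p1 h)
    · rw [Matrix.map_mul, Matrix.map_mul, hm2]
      exact c2 _ _ (trm_map p2 h)

/-- the decomposition of a commutative ring -/
theorem intS_comm {R : Type} [CommRing R] {t : ℕ} (ht : t ≠ 0) {u : R}
    (hu : (2 : R) ^ t = 2 ^ (t + 1) * u)
    (hU : ∀ (R : Type) [CommRing R], IsUnit (2 : R) → IntS F s X k Z R)
    (hN : ∀ (R : Type) [CommRing R], (2 : R) ^ t = 0 → IntS F s X k Z R) :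
    IntS F s X k Z R := by
  have h1 : ∀ m : ℕ, (2 : R) ^ t * (2 * u) ^ m = 2 ^ t := by
    intro m
    induction m with
    | zero => rw [pow_zero, mul_one]
    | succ m ih =>
      rw [pow_succ, ← mul_assoc, ih]
      conv_rhs => rw [hu]
      ring
  set e : R := (2 * u) ^ t with he
  have h2 : (2 : R) ^ t * e = 2 ^ t := h1 t
  have h3 : e * e = e := by
    have h4 : e = 2 ^ t * u ^ t := by rw [he, mul_pow]
    calc e * e = (2 ^ t * e) * u ^ t := by
          conv_lhs => rw [h4]
          rw [h4]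
          ring
      _ = e := by rw [h2, ← h4]
  set p1 := Ideal.Quotient.mk (Ideal.span {1 - e}) with hp1
  set p2 := Ideal.Quotient.mk (Ideal.span {e}) with hp2
  have hpe : p1 e = 1 := by
    have h4 : p1 (1 - e) = 0 := Ideal.Quotient.eq_zero_iff_mem.2 (Ideal.mem_span_singleton_self _)
    rw [map_sub, map_one, sub_eq_zero] at h4
    exact h4.symm
  have hpe' : p2 e = 0 := Ideal.Quotient.eq_zero_iff_mem.2 (Ideal.mem_span_singleton_self _)
  refine intS_prod p1 p2 ?_ ?_ (hU _ ?_) (hN _ ?_)
  · intro x y e1 e2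
    obtain ⟨c, hc⟩ := Ideal.mem_span_singleton.1 (Ideal.Quotient.eq.1 e1)
    obtain ⟨d, hd⟩ := Ideal.mem_span_singleton.1 (Ideal.Quotient.eq.1 e2)
    have h5 : x - y = e * (x - y) := by
      conv_rhs => rw [hd, ← mul_assoc, h3]
      exact hd
    have h6 : e * (x - y) = 0 := by
      rw [hc, ← mul_assoc, mul_sub, mul_one, h3, sub_self, zero_mul]
    rw [h6] at h5
    exact sub_eq_zero.1 h5
  · intro a b
    obtain ⟨a', rfl⟩ := Ideal.Quotient.mk_surjective a
    obtain ⟨b', rfl⟩ := Ideal.Quotient.mk_surjective b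
    refine ⟨e * a' + (1 - e) * b', ?_, ?_⟩
    · show p1 _ = p1 _
      rw [map_add, map_mul, map_mul, map_sub, hpe, map_one, one_mul, sub_self, zero_mul, add_zero]
    · show p2 _ = p2 _
      rw [map_add, map_mul, map_mul, map_sub, hpe', map_one, zero_mul, sub_zero, one_mul, zero_add]
  · have h7 : (p1 (2 * u)) ^ t = 1 := by rw [← map_pow, ← he, hpe]
    have h8 := IsUnit.of_pow_eq_one h7 ht
    rw [map_mul, map_ofNat] at h8
    exact isUnit_of_mul_isUnit_left h8
  · have h9 : p2 (2 ^ t) = 0 := by rw [← h2, map_mul, hpe', mul_zero]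
    rwa [map_pow, map_ofNat] at h9

/-- extension from the centre -/
theorem intS_center {R : Type} [Ring R] (h : IntS F s X k Z (Subring.center R)) :
    IntS F s X k Z R := by
  obtain ⟨P0, Q0, a, b, c⟩ := h
  set f : Subring.center R →+* R := (Subring.center R).subtype with hf
  have hone : ∀ {m : Type} [Fintype m] [DecidableEq m],
      (1 : Matrix m m (Subring.center R)).map f = 1 := by
    intro m _ _
    exact Matrix.map_one f (map_zero _) (map_one _)
  have hcen : ∀ (p : Subring.center R) (r : R), f p * r = r * f p := fun p r =>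
    (Subring.mem_center_iff.1 p.2 r).symm
  refine ⟨P0.map f, Q0.map f, ?_, ?_, fun M N hMN => ?_⟩
  · rw [← Matrix.map_mul, a, hone]
  · rw [← Matrix.map_mul, b, hone]
  · set S : Finset R := (univ.image fun p : {z : HF A // z ∈ Z} × {z : HF A // z ∈ Z} =>
      M p.1 p.2) ∪ (univ.image fun p : {z : HF A // z ∈ F.TF s Z X k} ×
        {z : HF A // z ∈ F.TF s Z X k} => N p.1 p.2) with hS
    have hM : ∀ x y, M x y ∈ S := fun x y => mem_union_left _ (mem_image.2 ⟨(x, y), mem_univ _, rfl⟩)
    have hN : ∀ x y, N x y ∈ S := fun x y =>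
      mem_union_right _ (mem_image.2 ⟨(x, y), mem_univ _, rfl⟩)
    have hval : ∀ a ∈ S, ∀ q : R, q * a = ∑ r ∈ S, (q * f (if a = r then 1 else 0)) * r := by
      intro a ha q
      rw [Finset.sum_eq_single a]
      · rw [if_pos rfl, map_one, mul_one]
      · intro r _ hr
        rw [if_neg (fun h => hr h.symm), map_zero, mul_zero, zero_mul]
      · intro h
        exact absurd ha h
    ext y' y
    have e1 : (P0.map f * M) y' y = ∑ r ∈ S,
        f ((P0 * (M.map fun a => if a = r then (1 : Subring.center R) else 0)) y' y) * r := by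
      rw [Matrix.mul_apply]
      have : ∀ x, (P0.map f) y' x * M x y = ∑ r ∈ S,
          (f (P0 y' x) * f (if M x y = r then 1 else 0)) * r := fun x =>
        hval _ (hM x y) _
      rw [Finset.sum_congr rfl (fun x _ => this x), Finset.sum_comm]
      refine Finset.sum_congr rfl fun r _ => ?_
      rw [Matrix.mul_apply, map_sum, Finset.sum_mul]
      refine Finset.sum_congr rfl fun x _ => ?_
      rw [map_mul]
      rfl
    have e2 : (N * P0.map f) y' y = ∑ r ∈ S,
        f (((N.map fun a => if a = r then (1 : Subring.center R) else 0) * P0) y' y) * r := by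
      rw [Matrix.mul_apply]
      have : ∀ x, N y' x * (P0.map f) x y = ∑ r ∈ S,
          (f (P0 x y) * f (if N y' x = r then 1 else 0)) * r := fun x => by
        rw [← hval _ (hN y' x) _, hcen]
        rfl
      rw [Finset.sum_congr rfl (fun x _ => this x), Finset.sum_comm]
      refine Finset.sum_congr rfl fun r _ => ?_
      rw [Matrix.mul_apply, map_sum, Finset.sum_mul]
      refine Finset.sum_congr rfl fun x _ => ?_
      rw [map_mul, hcen]
      rfl
    rw [e1, e2]
    refine Finset.sum_congr rfl fun r _ => ?_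
    rw [c _ _ (trm_map (fun a => if a = r then (1 : Subring.center R) else 0) hMN)]

/-- intertwiners over mild rings -/
theorem intS_mild {N : ℕ} {R : Type} [Ring R] (hR : Mild N R)
    (hU : ∀ (R : Type) [CommRing R], IsUnit (2 : R) → IntS F s X k Z R)
    (hN : ∀ (R : Type) [CommRing R] (j : ℕ), (2 ^ j) ^ 200 ≤ N → (2 : R) ^ (j + 1) = 0 →
      IntS F s X k Z R) : IntS F s X k Z R := by
  obtain ⟨j, hj, u, hu, hju⟩ := hR
  refine intS_center (intS_comm (t := j + 1) (Nat.succ_ne_zero j)
    (u := ⟨u, Subring.mem_center_iff.2 fun x => (hu x).symm⟩) (Subtype.ext ?_) hU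
    (fun R _ h => hN R j hj h))
  have h2 : ((2 : Subring.center R) : R) = 2 := rfl
  show ((2 : Subring.center R) : R) ^ (j + 1) = ((2 : Subring.center R) : R) ^ (j + 1 + 1) * u
  rw [h2]
  exact hju

end Pool.Agent.CLB
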