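import Pool.Agent.CLA.Comb
import Pool.Agent.CLB.InN

/-!
# Dissolving measures with values in `Z / 2 ^ (m + 1)`

The `2 ^ m`-th power, in the group algebra over `Z / 2 ^ (m + 1)`, of a lift of a measure with values
in `Z / 2` depends only on this measure: if `a` and `b` are congruent modulo `2`, then
`a ^ (2 ^ m)` and `b ^ (2 ^ m)` are congruent modulo `2 ^ (m + 1)`.
-/

set_option autoImplicit false

namespace Pool.Agent.CLB

open Finset Classical
open Pool.Agent.CPT hiding Tm eval Accepts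
open Pool.Agent.CLA hiding Tm eval Accepts

/-- powers of congruent elements -/
theorem pow_add_two {S : Type} [CommRing S] (a y : S) (i : ℕ) :
    ∃ y' : S, (a + 2 • y) ^ (2 ^ i) = a ^ (2 ^ i) + (2 ^ (i + 1)) • y' := by
  induction i with
  | zero => exact ⟨y, by simp⟩
  | succ i ih =>
    obtain ⟨y', hy⟩ := ih
    refine ⟨a ^ (2 ^ i) * y' + (2 ^ i) • (y' * y'), ?_⟩
    rw [pow_succ 2 i, pow_mul, hy, pow_mul]
    simp only [nsmul_eq_mul]
    push_cast
    ring

section gen

variable (m : ℕ)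

/-- the ring of values -/
abbrev Zm (m : ℕ) : Type := ZMod (2 ^ (m + 1))

/-- reduction modulo two -/
def red (m : ℕ) : Zm m →+* ZMod 2 := ZMod.castHom (dvd_pow_self 2 (Nat.succ_ne_zero m)) (ZMod 2)

/-- a lift -/
def lif (m : ℕ) (x : ZMod 2) : Zm m := (x.val : Zm m)

theorem red_lif (x : ZMod 2) : red m (lif m x) = x := by
  unfold lif red
  rw [map_natCast]
  exact ZMod.natCast_zmod_val x

theorem lif_zero : lif m 0 = 0 := by
  unfold lif
  rw [ZMod.val_zero, Nat.cast_zero]

theorem red_zero {x : Zm m} (h : red m x = 0) : ∃ y, x = 2 * y := by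
  have h1 : ((x.val : ℕ) : ZMod 2) = 0 := by
    have h2 : red m ((x.val : ℕ) : Zm m) = 0 := by
      rw [ZMod.natCast_zmod_val]
      exact h
    rwa [map_natCast] at h2
  obtain ⟨c, hc⟩ := (ZMod.natCast_eq_zero_iff _ _).1 h1
  refine ⟨(c : Zm m), ?_⟩
  rw [← ZMod.natCast_zmod_val x, hc]
  push_cast
  rfl

theorem two_pow_smul {M : Type} [AddCommGroup M] [Module (Zm m) M] (x : M) :
    (2 ^ (m + 1)) • x = 0 := by
  have h1 : ((2 ^ (m + 1) : ℕ) : Zm m) = 0 := ZMod.natCast_self _
  rw [← Nat.cast_smul_eq_nsmul (Zm m), h1, zero_smul]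

variable {G : Type} [AddCommGroup G] [Fintype G]

/-- the group algebra -/
abbrev Gm (m : ℕ) (G : Type) [AddCommGroup G] : Type := AddMonoidAlgebra (Zm m) G

/-- a function as an element of the group algebra -/
noncomputable def toG (f : G → Zm m) : Gm m G :=
  ∑ z : G, AddMonoidAlgebra.single z (f z)

theorem toG_coeff (f : G → Zm m) (z : G) : (toG m f).coeff z = f z := by
  unfold toG
  rw [AddMonoidAlgebra.coeff_sum, Finsupp.finsetSum_apply, Finset.sum_eq_single z]
  · rw [AddMonoidAlgebra.coeff_single, Finsupp.single_eq_same]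
  · intro y _ hy
    rw [AddMonoidAlgebra.coeff_single, Finsupp.single_eq_of_ne (by exact fun h => hy h.symm)]
  · intro h
    exact absurd (mem_univ _) h

/-- the coefficients of an image -/
theorem map_coeff {G' : Type} [AddCommGroup G'] (ρ : G →+ G') (x : Gm m G) (y : G') :
    (AddMonoidAlgebra.mapDomainRingHom (Zm m) ρ x).coeff y =
      ∑ z ∈ univ.filter (fun z => ρ z = y), x.coeff z := by
  have h1 : (AddMonoidAlgebra.mapDomainRingHom (Zm m) ρ x).coeff =
      Finsupp.mapDomain ρ x.coeff := rfl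
  rw [h1, Finsupp.mapDomain, Finsupp.sum_apply, Finsupp.sum_fintype _ _ (fun i => by simp),
    sum_filter]
  refine sum_congr rfl fun z _ => ?_
  rw [Finsupp.single_apply]

/-- supports of powers -/
theorem supp_pow {H : Type} [AddCommGroup H] (δ : G →+ H) (t : H) (x : Gm m G)
    (hx : ∀ z, x.coeff z ≠ 0 → δ z = t) (N : ℕ) : ∀ z, (x ^ N).coeff z ≠ 0 → δ z = N • t := by
  induction N with
  | zero =>
    intro z hz
    rw [pow_zero] at hz
    have h1 : z = 0 := by
      by_contra h
      apply hz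
      show (AddMonoidAlgebra.single (0 : G) (1 : Zm m)).coeff z = 0
      rw [AddMonoidAlgebra.coeff_single, Finsupp.single_eq_of_ne h]
    rw [h1, map_zero, zero_smul]
  | succ N ih =>
    intro z hz
    have e1 := pow_succ x N
    rw [e1] at hz
    have h1 := AddMonoidAlgebra.support_coeff_mul_subset (x ^ N) x (Finsupp.mem_support_iff.2 hz)
    obtain ⟨q, hq, q', hq', h2⟩ := Finset.mem_add.1 h1
    rw [← h2, map_add, ih q (Finsupp.mem_support_iff.1 hq), hx q' (Finsupp.mem_support_iff.1 hq'),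
      succ_nsmul]

/-- the augmentation -/
theorem aug_pow (x : Gm m G) (N : ℕ) : ∑ z, (x ^ N).coeff z = (∑ z, x.coeff z) ^ N := by
  let e : Gm m G →ₐ[Zm m] Zm m := AddMonoidAlgebra.lift (Zm m) (Zm m) G 1
  have h1 : ∀ y : Gm m G, e y = ∑ z, y.coeff z := by
    intro y
    show AddMonoidAlgebra.lift (Zm m) (Zm m) G 1 y = _
    rw [AddMonoidAlgebra.lift_apply, Finsupp.sum_fintype _ _ (fun i => by simp)]
    refine sum_congr rfl fun z _ => ?_
    simp
  rw [← h1, ← h1, map_pow]

/-- the power of a measure -/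
noncomputable def pwm (β : G → ZMod 2) : G → Zm m :=
  fun z => ((toG m fun z => lif m (β z)) ^ (2 ^ m)).coeff z

theorem pwm_sum {β : G → ZMod 2} (h : ∑ z, β z = 1) : ∑ z, pwm m β z = 1 := by
  unfold pwm
  rw [aug_pow]
  simp only [toG_coeff]
  have h1 : red m (∑ z, lif m (β z) - 1) = 0 := by
    rw [map_sub, map_sum, map_one]
    simp only [red_lif]
    rw [h, sub_self]
  obtain ⟨y, hy⟩ := red_zero m h1
  have h2 : ∑ z, lif m (β z) = 1 + 2 • y := by
    rw [nsmul_eq_mul, Nat.cast_ofNat, ← hy]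
    ring
  obtain ⟨y', hy'⟩ := pow_add_two (1 : Zm m) y m
  rw [h2, hy', one_pow, two_pow_smul, add_zero]

theorem pwm_supp {β : G → ZMod 2} (S : AddSubgroup G) (h : ∀ z, β z ≠ 0 → z ∈ S) :
    ∀ z, pwm m β z ≠ 0 → z ∈ S := by
  intro z hz
  have h1 := supp_pow m (QuotientAddGroup.mk' S) 0 (toG m fun z => lif m (β z)) (fun z hz => by
    rw [toG_coeff] at hz
    rw [QuotientAddGroup.mk'_apply, QuotientAddGroup.eq_zero_iff]
    refine h z fun h0 => hz ?_
    rw [h0, lif_zero]) (2 ^ m) z hz
  rw [smul_zero, QuotientAddGroup.mk'_apply, QuotientAddGroup.eq_zero_iff] at h1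
  exact h1

theorem pwm_map {G' H : Type} [AddCommGroup G'] [Fintype G'] [AddCommGroup H] {β : G → ZMod 2}
    (ρ : G →+ G') (δ : G' →+ H) (t : H)
    (h : ∀ y, δ y ≠ t → ∑ z ∈ univ.filter (fun z => ρ z = y), β z = 0) (y : G')
    (hy : δ y ≠ (2 ^ m) • t) : ∑ z ∈ univ.filter (fun z => ρ z = y), pwm m β z = 0 := by
  unfold pwm
  set b : Gm m G := toG m fun z => lif m (β z) with hb
  have h1 := map_coeff m ρ (b ^ (2 ^ m)) y
  rw [← h1, map_pow]
  set b' : Gm m G' := AddMonoidAlgebra.mapDomainRingHom (Zm m) ρ b with hb'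
  have h2 : ∀ y', δ y' ≠ t → ∃ c, b'.coeff y' = 2 * c := by
    intro y' hy'
    apply red_zero
    rw [hb', map_coeff, map_sum]
    have h3 : ∀ z, red m (b.coeff z) = β z := fun z => by
      rw [hb, toG_coeff, red_lif]
    simp only [h3]
    exact h y' hy'
  have h4 : ∀ y', ∃ c, δ y' ≠ t → b'.coeff y' = 2 * c := by
    intro y'
    by_cases hy' : δ y' = t
    · exact ⟨0, fun h => absurd hy' h⟩
    · obtain ⟨c, hc⟩ := h2 y' hy'
      exact ⟨c, fun _ => hc⟩
  choose c hc using h4
  set S : Gm m G' := toG m fun y' => if δ y' = t then b'.coeff y' else 0 with hS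
  set E : Gm m G' := toG m fun y' => if δ y' = t then 0 else c y' with hE
  have h5 : b' = S + 2 • E := by
    apply AddMonoidAlgebra.coeff_injective
    ext y'
    have h6 : (S + 2 • E).coeff y' = S.coeff y' + 2 * E.coeff y' := by
      rw [two_smul, AddMonoidAlgebra.coeff_add, AddMonoidAlgebra.coeff_add, Finsupp.add_apply,
        Finsupp.add_apply, two_mul]
    rw [h6, hS, hE, toG_coeff, toG_coeff]
    by_cases hy' : δ y' = t
    · rw [if_pos hy', if_pos hy', mul_zero, add_zero]
    · rw [if_neg hy', if_neg hy', zero_add]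
      exact hc y' hy'
  obtain ⟨E', hE'⟩ := pow_add_two S E m
  rw [h5, hE', two_pow_smul, add_zero]
  by_contra hne
  refine hy (supp_pow m δ t S (fun z hz => ?_) (2 ^ m) y hne)
  rw [hS, toG_coeff] at hz
  by_contra hz'
  rw [if_neg hz'] at hz
  exact hz rfl

end gen

/-- the dissolving measure with values in `Z / 2 ^ (m + 1)` -/
theorem combR {l : ℕ} {M : Type} [AddCommGroup M] [Fintype M] (u : M) (h m : ℕ) (y0 : Fin l)
    (hl : 3 ^ h + h < l) : ∃ (r : Vx l) (β : (Ed l → M) → Zm m), r 1 = y0 ∧ ∑ z, β z = 1 ∧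
    (∀ z, β z ≠ 0 → ∀ e : Ed l, (e.1 = 1 ∨ e.2 1 ≠ y0 ∨ ¬ ∃ u, ie e u) → z e = 0) ∧
    ∀ (D : Finset (Vx l)), (D.filter (fun d => d 1 = y0)).card ≤ h → ∀ z0 : Ed l → M,
      (∃ d ∈ D, dv z0 d ≠ if d = r then (2 ^ (h + m)) • u else 0) →
      ∑ z ∈ univ.filter (fun z : Ed l → M =>
        ∀ e, ((∃ u, ie e u) → ∃ u, ie e u ∧ u ∈ D) → z e = z0 e), β z = 0 := by
  obtain ⟨r, β, h1, h2, h3, h4⟩ := comb' u h y0 hl
  refine ⟨r, pwm m β, h1, pwm_sum m h2, ?_, ?_⟩
  · let S : AddSubgroup (Ed l → M) :=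
      { carrier := {z | ∀ e : Ed l, (e.1 = 1 ∨ e.2 1 ≠ y0 ∨ ¬ ∃ u, ie e u) → z e = 0}
        zero_mem' := fun _ _ => rfl
        add_mem' := fun {a b} ha hb e he => by rw [Pi.add_apply, ha e he, hb e he, add_zero]
        neg_mem' := fun {a} ha e he => by rw [Pi.neg_apply, ha e he, neg_zero] }
    exact pwm_supp m S h3
  · intro D hD z0 hz0
    let ρ : (Ed l → M) →+ (Ed l → M) :=
      { toFun := fun z e => if ((∃ u, ie e u) → ∃ u, ie e u ∧ u ∈ D) then z e else 0
        map_zero' := by
          funext e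
          by_cases he : ((∃ u, ie e u) → ∃ u, ie e u ∧ u ∈ D)
          · rw [if_pos he]
          · rw [if_neg he]; rfl
        map_add' := by
          intro a b
          funext e
          by_cases he : ((∃ u, ie e u) → ∃ u, ie e u ∧ u ∈ D)
          · simp only [Pi.add_apply, if_pos he]
          · simp only [Pi.add_apply, if_neg he, add_zero] }
    have hρ : ∀ z e, ρ z e = if ((∃ u, ie e u) → ∃ u, ie e u ∧ u ∈ D) then z e else 0 :=
      fun _ _ => rfl
    let δ : (Ed l → M) →+ ({d // d ∈ D} → M) :=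
      { toFun := fun z d => dv z d.1
        map_zero' := by funext d; exact dv_zero _
        map_add' := by intro a b; funext d; exact dv_add _ _ _ }
    have hδ : ∀ z d, δ z d = dv z d.1 := fun _ _ => rfl
    set t : {d // d ∈ D} → M := fun d => if d.1 = r then (2 ^ h) • u else 0 with ht
    have hcls : ∀ y : Ed l → M, ρ y = y → ∀ z : Ed l → M, ρ z = y ↔
          ∀ e, ((∃ u, ie e u) → ∃ u, ie e u ∧ u ∈ D) → z e = y e := by
      intro y hy z
      constructor
      · intro h5 e he
        rw [← h5, hρ, if_pos he]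
      · intro h5
        funext e
        rw [hρ]
        by_cases he : ((∃ u, ie e u) → ∃ u, ie e u ∧ u ∈ D)
        · rw [if_pos he, h5 e he]
        · rw [if_neg he, ← hy, hρ, if_neg he]
    have hρρ : ∀ z, ρ (ρ z) = ρ z := by
      intro z
      funext e
      rw [hρ, hρ]
      by_cases he : ((∃ u, ie e u) → ∃ u, ie e u ∧ u ∈ D)
      · rw [if_pos he, if_pos he]
      · rw [if_neg he, if_neg he]
    have h5 := pwm_map m ρ δ t (β := β) (fun y hy => by
      by_cases h6 : ρ y = y
      · refine (Finset.sum_congr ?_ fun _ _ => rfl).trans (h4 D hD y ?_)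
        · ext z
          simp only [mem_filter, mem_univ, true_and]
          exact hcls y h6 z
        by_contra h7
        push Not at h7
        apply hy
        funext d
        rw [hδ, ht]
        exact h7 d.1 d.2
      · refine sum_eq_zero fun z hz => ?_
        simp only [mem_filter, mem_univ, true_and] at hz
        have hz2 : ρ z = y := hz
        exact absurd (by rw [← hz2, hρρ]) h6) (ρ z0) (by
      obtain ⟨d, hd, hd'⟩ := hz0
      intro h6
      apply hd'
      have h7 := congrFun h6 ⟨d, hd⟩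
      rw [hδ] at h7
      have h8 : dv (ρ z0) d = dv z0 d := by
        refine dv_congr fun e he => ?_
        rw [hρ, if_pos (fun _ => ⟨d, he, hd⟩)]
      rw [← h8, h7, ht, Pi.smul_apply]
      by_cases h9 : d = r
      · simp only [h9, if_true]
        rw [smul_smul, pow_add, mul_comm]
      · simp only [h9, if_false, smul_zero])
    refine Eq.trans (Finset.sum_congr ?_ fun _ _ => rfl) h5
    ext z
    simp only [mem_filter, mem_univ, true_and]
    refine Iff.symm ((hcls (ρ z0) (hρρ z0) z).trans ?_)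
    refine forall_congr' fun e => imp_congr_right fun he => ?_
    rw [hρ, if_pos he]

end Pool.Agent.CLB
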