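import Pool.Agent.CLA.Asm
import Pool.Agent.CLB.EvT
import Pool.Agent.CLB.EvM
import Pool.Agent.CLB.GwF
import Pool.Agent.CLB.InR
import Pool.Agent.CLB.MsrR

/-!
# Programs with linear-algebraic operators and isomorphism oracles do not distinguish the twins
-/

set_option autoImplicit false

namespace Pool.Agent.CLB

open Finset Classical
open Pool.Agent.CPT hiding Tm eval Accepts Twin
open Pool.Agent.CLA hiding Tm eval Accepts accepts_iff accepts_iso twin_same twin_card pair_same
  single_same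

variable {l n : ℕ}

/-- isomorphisms of tame structures for the frame of the graphs -/
theorem isoP_frm (v0 : Vx l) (n h L s m N : ℕ) (hL : L < l) (hn : h + 1 ≤ n)
    (hLm : L + m * s < l) (hm : ∀ d, d ^ 200 ≤ N → d ≤ m)
    (he : ∀ j, (2 ^ j) ^ 200 ≤ N → j ≤ h) (B : Type) [Fintype B] :
    IsoP ((frm v0 n h L hL).ext B) s 9 N := by
  have h0 : l - 1 < l := by omega
  have h1 : IsoP (reL ((frm v0 n h (l - 1) h0).ext B) L (show L ≤ l - 1 by omega)) s 9 N :=
    isoP_reL (a := n) (e0 := h) (m := m) _ (show L + m * s ≤ l - 1 by omega)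
      (fun g hg => gz_pow hg) (fun D kD hD hkD => goodW v0 n h (l - 1) h0 hn B D kD hD hkD) hm he
  exact h1

/-- intertwiners over all mild rings for the frame of the graphs -/
theorem intR_frm (v0 : Vx l) (n h L s N : ℕ) (hL : L < l)
    (hj : ∀ j, (2 ^ j) ^ 200 ≤ N → L ^ 2 + j ≤ h) (hn : h + 1 ≤ n)
    (hl : 3 ^ h + h < l) (A' : Type) [Fintype A'] (R : Type) [Ring R] (hR : Mild N R) :
    IntR ((frm v0 n h L hL).ext A') s 9 R := by
  intro X k Z hk hX hZ hG
  have hXL : X.card + 9 * s ≤ L := hX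
  refine intS_mild hR (fun R _ h2 => ?_) (fun R _ j hj' h2 => ?_)
  · exact int_unit hk hZ hG (fun g hg k' => flip_comm hg.1 k')
      (fun D => GD_card_unit h2 (a := n) (fun g hg => gz_pow hg)) hX
  · have hjh := hj j hj'
    obtain ⟨w, hw⟩ := msR_exists v0 h L (X.card + 6 * s) hL (h' := h - j) (m := j) (by omega)
      (le_trans (Nat.pow_le_pow_left (show X.card + 6 * s ≤ L by omega) 2) (by omega)) hn hl A'
      (show X.card ≤ L by omega) hk
    have h3 : ringChar R ∣ 2 ^ (j + 1) := by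
      apply ringChar.dvd
      push_cast
      exact h2
    set f : Zm j →+* R := ZMod.castHom h3 R with hf
    refine int_nil (w.map f) (show X.card + 6 * s ≤ L by omega) hZ hk h2 ?_ hG
      (fun g hg h _ => flip_comm hg.1 h) (a := n) (fun g hg => gz_pow hg)
      (show 9 * s ≤ L by omega) le_rfl
    show ∑ c, f (w.w X c) = 1
    rw [← map_sum, hw, map_one]

/-- pairs of graphs -/
theorem pair_same (v0 : Vx l)
    (ns b N : ℕ) (t : Tm PV) (o : VG l n 0 → VG l n 0 → Prop)
    (hN : ∀ τ : Vx l → Rn n, Fintype.card (VG l n τ) ≤ N)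
    (e : ℕ) (he : ∀ b q : ℕ, t.bd b q 0 ≤ (b + q + 2) ^ e) {h L s r s0 : ℕ}
    (hp : Par l n h L s r s0 ((max b (N + N) + 2) ^ e)) (hd : (t.dep 9 + 9) * s ≤ L)
    {m : ℕ} (hLm : L + m * s < l) (hm : ∀ d, d ^ 200 ≤ N + N → d ≤ m)
    (hj : ∀ j, (2 ^ j) ^ 200 ≤ N + N → L ^ 2 + j ≤ h) :
    Accepts (pStr (XG l n 0).Adj o (XG l n 0).Adj) t ns b ↔
      Accepts (pStr (XG l n 0).Adj o (XG l n (tw n v0)).Adj) t ns b := by
  set B := max b (N + N) with hB
  set Q := (B + 2) ^ e with hQ
  let P := twP' v0 n h L hp.hL (VG l n 0) (XG l n 0).Adj o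
  have hinj : ∀ τ : Vx l → Rn n, Function.Injective
      (fun x : VG l n 0 ⊕ VG l n τ => prAt τ x) := by
    intro τ x y hxy
    rcases x with x | x <;> rcases y with y | y
    · exact congrArg Sum.inl (AB.r_inj hxy)
    · exact absurd hxy (by intro h; cases h)
    · exact absurd hxy (by intro h; cases h)
    · exact congrArg Sum.inr (Subtype.ext (AB.l_inj hxy))
  have hS : ∀ τ : Vx l → Rn n, (fun (r : PV.R) (x : Fin (PV.ar r) → VG l n 0 ⊕ VG l n τ) =>
      P.S r (fun i => prAt τ (x i))) =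
      pStr (XG l n 0).Adj o (XG l n τ).Adj := fun τ => pAB_comp τ o
  have hU : ∀ τ : Vx l → Rn n,
      Finset.univ.image (fun x : VG l n 0 ⊕ VG l n τ => prAt τ x) =
      (Finset.univ.filter (InU τ)).image AB.l ∪ Finset.univ.image AB.r := by
    intro τ
    ext z
    simp only [mem_image, mem_univ, true_and, mem_union, mem_filter, Sum.exists, prAt, Sum.elim_inl,
      Sum.elim_inr, Subtype.exists, exists_prop]
    rw [or_comm]
  have h0 := accepts_iff _ (hinj 0) P.S ns b t
  have h1 := accepts_iff _ (hinj (tw n v0)) P.S ns b t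
  rw [hS, hU] at h0 h1
  rw [h0, h1]
  have hcard' : P.U0.card ≤ N + N := by
    show ((Finset.univ.filter (InU 0)).image AB.l ∪ Finset.univ.image AB.r).card ≤ N + N
    refine (card_union_le _ _).trans ?_
    have h2 : ((Finset.univ.filter (InU (l := l) (n := n) 0)).image
        (AB.l (B := VG l n 0))).card ≤ N := by
      refine card_image_le.trans ?_
      have := hN 0
      rwa [Fintype.card_subtype] at this
    have h3 : ((Finset.univ : Finset (VG l n 0)).image (AB.r (A := Al l n))).card ≤ N :=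
      card_image_le.trans (hN 0)
    omega
  have hcard : P.U0.card ≤ B := hcard'.trans (le_max_right _ _)
  have hdep : (9 : ℕ) * s ≤ (t.dep 9 + 9) * s := Nat.mul_le_mul_right _ (by omega)
  have hdep' : t.dep 9 * s ≤ (t.dep 9 + 9) * s := Nat.mul_le_mul_right _ (by omega)
  have hs := hp.hs
  exact twin_same P ns b B s Q 9 hcard (le_max_left _ _)
    (fun a => (card_pl v0 h L hp.hL a).trans (by omega))
    (fun x hx => hp.hs ▸ sup_exists v0 h L hp.hL Q r s0 hp.hr hp.hrh hp.hQ (by omega) x hx)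
    (fun R _ hR => intR_frm v0 n h L s P.U0.card hp.hL (fun j h1 => hj j (h1.trans hcard'))
      hp.hn hp.hl _ R hR)
    (isoP_frm v0 n h L s m P.U0.card hp.hL hp.hn hLm (fun d hd => hm d (hd.trans hcard'))
      (fun j hd => le_trans (Nat.le_add_left _ _) (hj j (hd.trans hcard'))) _)
    (th_nonempty v0 h) t (by simpa using he B 0)
    (by show t.dep 9 * s ≤ L; omega)

/-- single graphs -/
theorem single_same (v0 : Vx l)
    (ns b N : ℕ) (t : Tm GV)
    (hN : ∀ τ : Vx l → Rn n, Fintype.card (VG l n τ) ≤ N)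
    (e : ℕ) (he : ∀ b q : ℕ, t.bd b q 0 ≤ (b + q + 2) ^ e) {h L s r s0 : ℕ}
    (hp : Par l n h L s r s0 ((max b (N + N) + 2) ^ e)) (hd : (t.dep 9 + 9) * s ≤ L)
    {m : ℕ} (hLm : L + m * s < l) (hm : ∀ d, d ^ 200 ≤ N + N → d ≤ m)
    (hj : ∀ j, (2 ^ j) ^ 200 ≤ N + N → L ^ 2 + j ≤ h) :
    Accepts (gStr (XG l n 0).Adj) t ns b ↔
      Accepts (gStr (XG l n (tw n v0)).Adj) t ns b := by
  set B := max b (N + N) with hB
  set Q := (B + 2) ^ e with hQ
  let P := twS' v0 n h L hp.hL
  have hinj : ∀ τ : Vx l → Rn n, Function.Injective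
      (fun x : VG l n τ => (AB.l x.1 : AB (Al l n) Empty)) := by
    intro τ x y hxy
    exact Subtype.ext (AB.l_inj hxy)
  have hS : ∀ τ : Vx l → Rn n, (fun (r : GV.R) (x : Fin (GV.ar r) → VG l n τ) =>
      P.S r (fun i => (AB.l (x i).1 : AB (Al l n) Empty))) =
      gStr (XG l n τ).Adj := by
    intro τ
    funext r x
    rfl
  have hU : ∀ τ : Vx l → Rn n, Finset.univ.image (fun x : VG l n τ =>
      (AB.l x.1 : AB (Al l n) Empty)) = (Finset.univ.filter (InU τ)).image AB.l := by
    intro τ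
    ext z
    simp only [mem_image, mem_univ, true_and, mem_filter, Subtype.exists, exists_prop]
  have h0 := accepts_iff _ (hinj 0) P.S ns b t
  have h1 := accepts_iff _ (hinj (tw n v0)) P.S ns b t
  rw [hS, hU] at h0 h1
  rw [h0, h1]
  have hcard' : P.U0.card ≤ N + N := by
    show ((Finset.univ.filter (InU 0)).image AB.l).card ≤ N + N
    refine card_image_le.trans ?_
    have h3 := hN 0
    rw [Fintype.card_subtype] at h3
    exact h3.trans (Nat.le_add_right _ _)
  have hcard : P.U0.card ≤ B := hcard'.trans (le_max_right _ _)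
  have hdep : (9 : ℕ) * s ≤ (t.dep 9 + 9) * s := Nat.mul_le_mul_right _ (by omega)
  have hdep' : t.dep 9 * s ≤ (t.dep 9 + 9) * s := Nat.mul_le_mul_right _ (by omega)
  have hs := hp.hs
  exact twin_same P ns b B s Q 9 hcard (le_max_left _ _)
    (fun a => (card_pl v0 h L hp.hL a).trans (by omega))
    (fun x hx => hp.hs ▸ sup_exists v0 h L hp.hL Q r s0 hp.hr hp.hrh hp.hQ (by omega) x hx)
    (fun R _ hR => intR_frm v0 n h L s P.U0.card hp.hL (fun j h1 => hj j (h1.trans hcard'))
      hp.hn hp.hl _ R hR)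
    (isoP_frm v0 n h L s m P.U0.card hp.hL hp.hn hLm (fun d hd => hm d (hd.trans hcard'))
      (fun j hd => le_trans (Nat.le_add_left _ _) (hj j (hd.trans hcard'))) _)
    (th_nonempty v0 h) t (by simpa using he B 0)
    (by show t.dep 9 * s ≤ L; omega)

end Pool.Agent.CLB
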