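import Pool.Agent.CLA.Voc

/-!
# Choiceless polynomial time with counting, linear algebra over rings and isomorphism oracles

`Tm Γ` are the terms of BGS logic with counting (Blass, Gurevich, Shelah) extended by

* all linear-algebraic operators over rings (`LaOp`): functions of tuples of square matrices over a
  ring, invariant under simultaneous similarity; the ring may be any ring in which `2 ^ (j + 1)` is a
  multiple of `2 ^ (j + 2)` (by a central element), for a `j` with `2 ^ j ≤ N ^ (1 / 200)`, where
  `N` is the number of elements of the input. All fields, all rings in which `2` is invertible and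
  all finite rings whose characteristic is at most `N ^ (1 / 200)` are of this kind;
* all isomorphism-invariant functions of tame structures (`IsoOp`). A structure is a finite set `I`
  with a function `w : I ^ r → ℕ`. It is tame in an input with `N` elements if there is a set `D` of
  at most `N ^ (1 / 200)` elements of `I` such that every automorphism which fixes all elements of
  `D` and whose order is a power of two has order at most `N ^ (1 / 200)`.

The sets `I` are arbitrary sets that occur in the computation, the entries of the matrices and the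
values of `w` are given by terms.
-/

set_option autoImplicit false

namespace Pool.Agent.CLB

open Finset Classical
open Pool.Agent.CPT (HF Voc Str)
open Pool.Agent.CLA (num)

/-- the ring `R` is mild in an input with `N` elements: for some `j` with `2 ^ j ≤ N ^ (1 / 200)`,
the number `2 ^ (j + 1)` is a multiple of `2 ^ (j + 2)` by a central element of `R` -/
def Mild (N : ℕ) (R : Type) [Ring R] : Prop :=
  ∃ j : ℕ, (2 ^ j) ^ 200 ≤ N ∧ ∃ u : R, (∀ x : R, u * x = x * u) ∧
    (2 : R) ^ (j + 1) = 2 ^ (j + 2) * u

/-- a linear-algebraic operator: for every natural number `p` a ring `Rg p`, a reading `rd p` of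
the natural numbers as elements of `Rg p`, and a function `f p` of `k`-tuples of square matrices
over `Rg p`, indexed by arbitrary finite sets, with values in the natural numbers, which is invariant
under simultaneous similarity -/
structure LaOp where
  /-- the number of matrices -/
  k : ℕ
  /-- the rings -/
  Rg : ℕ → Type
  rng : ∀ p : ℕ, Ring (Rg p)
  /-- the reading of numbers as ring elements -/
  rd : ∀ p : ℕ, ℕ → Rg p
  /-- the function -/
  f : ∀ (p : ℕ) (I : Type) [Fintype I], (Fin k → Matrix I I (Rg p)) → ℕ
  inv : ∀ (p : ℕ) (I J : Type) [Fintype I] [Fintype J] [DecidableEq I] [DecidableEq J]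
    (P : Matrix J I (Rg p)) (Q : Matrix I J (Rg p)) (M : Fin k → Matrix I I (Rg p))
    (M' : Fin k → Matrix J J (Rg p)), P * Q = 1 → Q * P = 1 → (∀ i, P * M i = M' i * P) →
    f p I M = f p J M'

/-- the value of the operator: `0` if the ring is not mild -/
noncomputable def LaOp.val (o : LaOp) (N p : ℕ) (I : Type) [Fintype I]
    (M : Fin o.k → Matrix I I (o.Rg p)) : ℕ :=
  let _ := o.rng p
  if Mild N (o.Rg p) then o.f p I M else 0

/-- `σ` is an automorphism of the structure `w` -/
def IsAut {I : Type} {r : ℕ} (w : (Fin r → I) → ℕ) (σ : Equiv.Perm I) : Prop :=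
  ∀ x : Fin r → I, w (fun j => σ (x j)) = w x

/-- the structure `w` is tame in an input with `N` elements: there is a set `D` of at most
`N ^ (1 / 200)` elements such that all automorphisms which fix the elements of `D`, of order a power
of two, have order at most `N ^ (1 / 200)` -/
def Tame (N : ℕ) {I : Type} {r : ℕ} (w : (Fin r → I) → ℕ) : Prop :=
  ∃ D : Finset I, D.card ^ 200 ≤ N ∧ ∀ σ : Equiv.Perm I, IsAut w σ → (∀ d ∈ D, σ d = d) →
    ∀ j : ℕ, orderOf σ = 2 ^ j → (2 ^ j) ^ 200 ≤ N

/-- an isomorphism-invariant function of structures with an `r`-ary function `w` and a number `p` -/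
structure IsoOp where
  /-- the arity -/
  r : ℕ
  /-- the function -/
  f : ∀ (p : ℕ) (I : Type) [Fintype I], ((Fin r → I) → ℕ) → ℕ
  inv : ∀ (p : ℕ) (I J : Type) [Fintype I] [Fintype J] (e : I ≃ J) (w : (Fin r → I) → ℕ)
    (v : (Fin r → J) → ℕ), (∀ x, v (fun j => e (x j)) = w x) → f p I w = f p J v

/-- the value of the operator: `0` if the structure is not tame -/
noncomputable def IsoOp.val (o : IsoOp) (N p : ℕ) (I : Type) [Fintype I] (w : (Fin o.r → I) → ℕ) :
    ℕ :=
  if Tame N w then o.f p I w else 0

/-- terms of BGS logic with counting, linear-algebraic operators over mild rings and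
isomorphism-invariant functions of tame structures -/
inductive Tm (Γ : Voc) : Type 1
  /-- a variable -/
  | var (i : ℕ) : Tm Γ
  /-- the empty set -/
  | empty : Tm Γ
  /-- the set of all atoms -/
  | atoms : Tm Γ
  /-- `{s, t}` -/
  | pair (s t : Tm Γ) : Tm Γ
  /-- the union of the elements of `t` -/
  | union (t : Tm Γ) : Tm Γ
  /-- the element of `t`, if `t` has exactly one element, otherwise `∅` -/
  | uniq (t : Tm Γ) : Tm Γ
  /-- the number of elements of `t`, as a von Neumann ordinal -/
  | card (t : Tm Γ) : Tm Γ
  /-- truth value of `s = t` -/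
  | eq (s t : Tm Γ) : Tm Γ
  /-- truth value of `s ∈ t` -/
  | mem (s t : Tm Γ) : Tm Γ
  /-- truth value of an atomic formula `r (t_0, …)` of the input structure -/
  | rel (r : Γ.R) (ts : Fin (Γ.ar r) → Tm Γ) : Tm Γ
  /-- negation: `1` if `t = 0`, otherwise `0` -/
  | neg (t : Tm Γ) : Tm Γ
  /-- conjunction: `1` if `s ≠ 0` and `t ≠ 0`, otherwise `0` -/
  | and (s t : Tm Γ) : Tm Γ
  /-- comprehension `{s(x) : x ∈ t, c(x) ≠ 0}`; in `s` and `c` the variable `0` is `x` -/
  | comp (s t c : Tm Γ) : Tm Γ
  /-- iteration: the fixed point of `∅, t(∅), t(t(∅)), …`; in `t` the variable `0` is iterated -/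
  | iter (t : Tm Γ) : Tm Γ
  /-- the value (an ordinal) of the operator `o` with the ring given by the number `p`, at the
  matrices with index set `i` and entries `e_j(x, y)`, if this ring is mild, otherwise `0`; in `e_j`
  the variable `0` is the column `y` and the variable `1` is the row `x` -/
  | la (o : LaOp) (p i : Tm Γ) (e : Fin o.k → Tm Γ) : Tm Γ
  /-- the value (an ordinal) of the operator `o` with the number `p`, at the structure with the set
  `i` and the function `w(x_0, …, x_(r-1))`, if this structure is tame, otherwise `0`; in `w` the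
  variables `0, …, r-1` are `x_0, …, x_(r-1)` -/
  | iso (o : IsoOp) (p i w : Tm Γ) : Tm Γ

/-- the value of a term; `U` is the set of atoms, `S` the structure, `a` and `b` the bounds for the
number of steps and the size of the stages of the iterations, `ρ` the list of the values of the
variables (variables outside the list are `∅`) -/
noncomputable def eval {Γ : Voc} {A : Type} (U : Finset A) (S : Str Γ A) (a b : ℕ) :
    Tm Γ → List (HF A) → HF A
  | .var i, ρ => ρ.getD i HF.emp
  | .empty, _ => HF.emp
  | .atoms, _ => HF.mk (U.image HF.atom)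
  | .pair s t, ρ => HF.pr (eval U S a b s ρ) (eval U S a b t ρ)
  | .union t, ρ => HF.un (eval U S a b t ρ)
  | .uniq t, ρ => HF.uq (eval U S a b t ρ)
  | .card t, ρ => HF.ord (HF.elems (eval U S a b t ρ)).card
  | .eq s t, ρ => HF.tv (eval U S a b s ρ = eval U S a b t ρ)
  | .mem s t, ρ => HF.tv (eval U S a b s ρ ∈ HF.elems (eval U S a b t ρ))
  | .rel r ts, ρ => HF.tv (∃ x : Fin (Γ.ar r) → A, (∀ i, eval U S a b (ts i) ρ = HF.atom (x i)) ∧
      S r x)
  | .neg t, ρ => HF.tv (eval U S a b t ρ = HF.ord 0)
  | .and s t, ρ => HF.tv (eval U S a b s ρ ≠ HF.ord 0 ∧ eval U S a b t ρ ≠ HF.ord 0)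
  | .comp s t c, ρ => HF.mk (((HF.elems (eval U S a b t ρ)).filter
      (fun x => eval U S a b c (x :: ρ) ≠ HF.ord 0)).image (fun x => eval U S a b s (x :: ρ)))
  | .iter t, ρ => HF.itr a b (fun x => eval U S a b t (x :: ρ))
  | .la o p i e, ρ => HF.ord (o.val U.card (num (eval U S a b p ρ))
      {x : HF A // x ∈ HF.elems (eval U S a b i ρ)}
      (fun j x y => o.rd (num (eval U S a b p ρ)) (num (eval U S a b (e j) (y.1 :: x.1 :: ρ)))))
  | .iso o p i w, ρ => HF.ord (o.val U.card (num (eval U S a b p ρ))
      {x : HF A // x ∈ HF.elems (eval U S a b i ρ)}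
      (fun x => num (eval U S a b w (List.ofFn (fun j => (x j).1) ++ ρ))))

/-- the input structure `S` on `V` is accepted by the term `t` with bounds `a` (number of steps) and
`b` (size) -/
def Accepts {Γ : Voc} {V : Type} [Fintype V] (S : Str Γ V) (t : Tm Γ) (a b : ℕ) : Prop :=
  eval Finset.univ S a b t [] = HF.ord 1

end Pool.Agent.CLB
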