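import Pool.Agent.CLB.Def
import Pool.Agent.CLA.Lem

/-!
# Isomorphism-invariant functions: reindexing
-/

set_option autoImplicit false

namespace Pool.Agent.CLB

open Finset Classical
open Pool.Agent.CPT (HF Voc Str)
open Pool.Agent.CLA (num num_ord num_congr)

/-! ### Linear-algebraic operators -/

/-- reindexing -/
theorem LaOp.f_equiv (o : LaOp) (p : ℕ) {I J : Type} [Fintype I] [Fintype J] (e : I ≃ J)
    (M : Fin o.k → Matrix I I (o.Rg p)) (N : Fin o.k → Matrix J J (o.Rg p))
    (h : ∀ j x y, N j (e x) (e y) = M j x y) : o.f p I M = o.f p J N := by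
  let _ := o.rng p
  refine o.inv p I J (Matrix.of fun j i => if j = e i then 1 else 0)
    (Matrix.of fun i j => if j = e i then 1 else 0) M N ?_ ?_ ?_
  · ext a b
    rw [Matrix.mul_apply, Matrix.one_apply, Finset.sum_eq_single (e.symm a)]
    · by_cases hab : a = b
      · subst hab; simp
      · have hba : ¬ b = a := fun h => hab h.symm
        simp [hab, hba]
    · intro c _ hc
      have : ¬ a = e c := fun h => hc (by rw [h]; simp)
      simp [this]
    · intro h; exact absurd (Finset.mem_univ _) h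
  · ext a b
    rw [Matrix.mul_apply, Matrix.one_apply, Finset.sum_eq_single (e a)]
    · by_cases hab : a = b
      · subst hab; simp
      · have : ¬ e a = e b := fun h => hab (e.injective h)
        simp [hab]
    · intro c _ hc
      simp [hc]
    · intro h; exact absurd (Finset.mem_univ _) h
  · intro i
    ext a b
    rw [Matrix.mul_apply, Matrix.mul_apply, Finset.sum_eq_single (e.symm a),
      Finset.sum_eq_single (e b)]
    · have h1 := h i (e.symm a) b
      rw [Equiv.apply_symm_apply] at h1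
      simp [h1]
    · intro c _ hc
      simp [hc]
    · intro h; exact absurd (Finset.mem_univ _) h
    · intro c _ hc
      have : ¬ a = e c := fun h => hc (by rw [h]; simp)
      simp [this]
    · intro h; exact absurd (Finset.mem_univ _) h

/-- the value depends only on the similarity class -/
theorem LaOp.val_congr (o : LaOp) (N p : ℕ) {I J : Type} [Fintype I] [Fintype J]
    (M : Fin o.k → Matrix I I (o.Rg p)) (M' : Fin o.k → Matrix J J (o.Rg p))
    (h : @Mild N (o.Rg p) (o.rng p) → o.f p I M = o.f p J M') : o.val N p I M = o.val N p J M' := by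
  unfold LaOp.val
  let _ := o.rng p
  by_cases h1 : Mild N (o.Rg p)
  · rw [if_pos h1, if_pos h1, h h1]
  · rw [if_neg h1, if_neg h1]

/-- reindexing along an injective map of finite sets -/
theorem LaOp.val_image (o : LaOp) (N p : ℕ) {α β : Type} (u : Finset α) (v : Finset β) (φ : α → β)
    (hφ : Set.InjOn φ u) (huv : v = u.image φ)
    (M : Fin o.k → Matrix {x : α // x ∈ u} {x : α // x ∈ u} (o.Rg p))
    (M' : Fin o.k → Matrix {x : β // x ∈ v} {x : β // x ∈ v} (o.Rg p))
    (h : ∀ j (x y : {x : α // x ∈ u}) (x' y' : {x : β // x ∈ v}), x'.1 = φ x.1 → y'.1 = φ y.1 →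
      M' j x' y' = M j x y) :
    o.val N p {x : α // x ∈ u} M = o.val N p {x : β // x ∈ v} M' := by
  have hb : Function.Bijective (fun x : {x : α // x ∈ u} =>
      (⟨φ x.1, by rw [huv]; exact mem_image_of_mem _ x.2⟩ : {x : β // x ∈ v})) := by
    constructor
    · intro x y hxy
      exact Subtype.ext (hφ x.2 y.2 (congrArg Subtype.val hxy))
    · rintro ⟨y, hy⟩
      have hy' := hy
      rw [huv, mem_image] at hy'
      obtain ⟨x, hx, hxy⟩ := hy'
      exact ⟨⟨x, hx⟩, Subtype.ext hxy⟩
  refine o.val_congr N p M M' fun _ => o.f_equiv p (Equiv.ofBijective _ hb) M M' (fun j x y => ?_)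
  exact h j x y _ _ rfl rfl

/-! ### Isomorphism-invariant functions -/

theorem Tame.of_equiv {N r : ℕ} {I J : Type} (e : I ≃ J) {w : (Fin r → I) → ℕ}
    {v : (Fin r → J) → ℕ} (h : ∀ x, v (fun j => e (x j)) = w x) (hw : Tame N w) : Tame N v := by
  obtain ⟨D, hD, hA⟩ := hw
  refine ⟨D.map e.toEmbedding, by rwa [card_map], fun σ hσ hfix j hj => ?_⟩
  refine hA ((e.trans σ).trans e.symm) (fun x => ?_) (fun d hd => ?_) j ?_
  · have h1 := hσ (fun j => e (x j))
    rw [h x] at h1
    rw [← h1, ← h]
    simp only [Equiv.trans_apply, Equiv.apply_symm_apply]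
  · have h1 := hfix (e d) (by
      rw [mem_map]
      exact ⟨d, hd, rfl⟩)
    rw [Equiv.trans_apply, Equiv.trans_apply, h1, Equiv.symm_apply_apply]
  · rw [← hj]
    have h1 : ((e.trans σ).trans e.symm) = e.permCongr.symm σ := by
      ext x
      rfl
    have h2 : e.permCongr.symm σ = e.permCongrHom.symm σ := rfl
    rw [h1, h2]
    exact MulEquiv.orderOf_eq e.permCongrHom.symm σ

theorem tame_equiv {N r : ℕ} {I J : Type} (e : I ≃ J) {w : (Fin r → I) → ℕ}
    {v : (Fin r → J) → ℕ} (h : ∀ x, v (fun j => e (x j)) = w x) : Tame N w ↔ Tame N v := by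
  refine ⟨Tame.of_equiv e h, Tame.of_equiv e.symm fun x => ?_⟩
  rw [← h]
  simp only [Equiv.apply_symm_apply]

/-- the value is invariant under isomorphisms -/
theorem IsoOp.val_equiv (o : IsoOp) (N p : ℕ) {I J : Type} [Fintype I] [Fintype J] (e : I ≃ J)
    (w : (Fin o.r → I) → ℕ) (v : (Fin o.r → J) → ℕ) (h : ∀ x, v (fun j => e (x j)) = w x) :
    o.val N p I w = o.val N p J v := by
  unfold IsoOp.val
  rw [o.inv p I J e w v h]
  by_cases h1 : Tame N w
  · rw [if_pos h1, if_pos ((tame_equiv e h).1 h1)]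
  · rw [if_neg h1, if_neg (fun h2 => h1 ((tame_equiv e h).2 h2))]

/-- reindexing along an injective map of finite sets -/
theorem IsoOp.val_image (o : IsoOp) (N p : ℕ) {α β : Type} (u : Finset α) (v : Finset β) (φ : α → β)
    (hφ : Set.InjOn φ u) (huv : v = u.image φ)
    (w : (Fin o.r → {x : α // x ∈ u}) → ℕ) (w' : (Fin o.r → {x : β // x ∈ v}) → ℕ)
    (h : ∀ (x : Fin o.r → {x : α // x ∈ u}) (x' : Fin o.r → {x : β // x ∈ v}),
      (∀ j, (x' j).1 = φ (x j).1) → w' x' = w x) :
    o.val N p {x : α // x ∈ u} w = o.val N p {x : β // x ∈ v} w' := by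
  have hb : Function.Bijective (fun x : {x : α // x ∈ u} =>
      (⟨φ x.1, by rw [huv]; exact mem_image_of_mem _ x.2⟩ : {x : β // x ∈ v})) := by
    constructor
    · intro x y hxy
      exact Subtype.ext (hφ x.2 y.2 (congrArg Subtype.val hxy))
    · rintro ⟨y, hy⟩
      have hy' := hy
      rw [huv, mem_image] at hy'
      obtain ⟨x, hx, hxy⟩ := hy'
      exact ⟨⟨x, hx⟩, Subtype.ext hxy⟩
  exact o.val_equiv N p (Equiv.ofBijective _ hb) w w' (fun x => h x _ fun j => rfl)

end Pool.Agent.CLB
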