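import Pool.Agent.CPT.Ev
import Pool.Agent.CLA.Tw
import Pool.Agent.CLB.Lem

/-!
# Bounds for orbits, evaluation commutes with automorphisms
-/

set_option autoImplicit false

namespace Pool.Agent.CLB

open Finset Classical
open Pool.Agent.CPT hiding Tm Twin eval Accepts
open Pool.Agent.CLA (num num_ord num_congr)

/-- a bound for the orbits of all values that occur in the evaluation of a term with at most `m`
variables, if the orbits of the values of the variables have size at most `q` -/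
def Tm.bd {Γ : Voc} (b : ℕ) : Tm Γ → ℕ → ℕ → ℕ
  | .var _, q, m => (q + 1) ^ (m + 1) + b
  | .empty, q, m => (q + 1) ^ (m + 1) + b
  | .atoms, q, m => (q + 1) ^ (m + 1) + b
  | .pair s t, q, m => s.bd b q m + t.bd b q m + (q + 1) ^ (m + 1) + b
  | .union t, q, m => t.bd b q m + (q + 1) ^ (m + 1) + b
  | .uniq t, q, m => t.bd b q m + (q + 1) ^ (m + 1) + b
  | .card t, q, m => t.bd b q m + (q + 1) ^ (m + 1) + b
  | .eq s t, q, m => s.bd b q m + t.bd b q m + (q + 1) ^ (m + 1) + b
  | .mem s t, q, m => s.bd b q m + t.bd b q m + (q + 1) ^ (m + 1) + b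
  | .rel r ts, q, m => (∑ i : Fin (Γ.ar r), (ts i).bd b q m) + (q + 1) ^ (m + 1) + b
  | .neg t, q, m => t.bd b q m + (q + 1) ^ (m + 1) + b
  | .and s t, q, m => s.bd b q m + t.bd b q m + (q + 1) ^ (m + 1) + b
  | .comp s t c, q, m => t.bd b q m + s.bd b (t.bd b q m + q) (m + 1) +
      c.bd b (t.bd b q m + q) (m + 1) + (q + 1) ^ (m + 1) + b
  | .iter t, q, m => t.bd b (b * (q + 1) ^ (m + 1) + q) (m + 1) + b * (q + 1) ^ (m + 1) +
      (q + 1) ^ (m + 1) + b
  | .la o p i e, q, m => p.bd b q m + i.bd b q m +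
      (∑ j : Fin o.k, (e j).bd b (i.bd b q m + q) (m + 2)) + (q + 1) ^ (m + 1) + b
  | .iso o p i w, q, m => p.bd b q m + i.bd b q m +
      w.bd b (i.bd b q m + q) (o.r + m) + (q + 1) ^ (m + 1) + b

/-- number of supports needed in the evaluation; `c` is the number of supports needed for the
intertwiners -/
def Tm.dep {Γ : Voc} (c : ℕ) : Tm Γ → ℕ
  | .var _ => 9
  | .empty => 9
  | .atoms => 9
  | .pair s t => s.dep c + t.dep c + 9
  | .union t => t.dep c + 9
  | .uniq t => t.dep c + 9
  | .card t => t.dep c + 9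
  | .eq s t => s.dep c + t.dep c + 9
  | .mem s t => s.dep c + t.dep c + 9
  | .rel r ts => (∑ i : Fin (Γ.ar r), (ts i).dep c) + 9
  | .neg t => t.dep c + 9
  | .and s t => s.dep c + t.dep c + 9
  | .comp s t d => s.dep c + t.dep c + d.dep c + 9
  | .iter t => t.dep c + 9
  | .la o p i e => p.dep c + i.dep c + (∑ j : Fin o.k, (e j).dep c) + c + 9
  | .iso o p i w => p.dep c + i.dep c + w.dep c + o.r + c + 9

theorem bd_poly' {Γ : Voc} (t : Tm Γ) : ∀ m : ℕ, EvA.PB (fun b q => t.bd b q m) := by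
  induction t with
  | var i => exact fun m => (EvA.PB.pw _).add EvA.PB.fst
  | empty => exact fun m => (EvA.PB.pw _).add EvA.PB.fst
  | atoms => exact fun m => (EvA.PB.pw _).add EvA.PB.fst
  | pair s t hs ht => exact fun m => (((hs m).add (ht m)).add (EvA.PB.pw _)).add EvA.PB.fst
  | union t ht => exact fun m => ((ht m).add (EvA.PB.pw _)).add EvA.PB.fst
  | uniq t ht => exact fun m => ((ht m).add (EvA.PB.pw _)).add EvA.PB.fst
  | card t ht => exact fun m => ((ht m).add (EvA.PB.pw _)).add EvA.PB.fst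
  | eq s t hs ht => exact fun m => (((hs m).add (ht m)).add (EvA.PB.pw _)).add EvA.PB.fst
  | mem s t hs ht => exact fun m => (((hs m).add (ht m)).add (EvA.PB.pw _)).add EvA.PB.fst
  | rel r ts ih => exact fun m => ((EvA.PB.sum _ (fun i _ => ih i m)).add (EvA.PB.pw _)).add EvA.PB.fst
  | neg t ht => exact fun m => ((ht m).add (EvA.PB.pw _)).add EvA.PB.fst
  | and s t hs ht => exact fun m => (((hs m).add (ht m)).add (EvA.PB.pw _)).add EvA.PB.fst
  | comp s t c hs ht hc =>
    exact fun m => ((((ht m).add ((hs (m + 1)).comp ((ht m).add EvA.PB.snd))).add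
      ((hc (m + 1)).comp ((ht m).add EvA.PB.snd))).add (EvA.PB.pw _)).add EvA.PB.fst
  | iter t ht =>
    exact fun m => ((((ht (m + 1)).comp ((EvA.PB.fst.mul (EvA.PB.pw _)).add EvA.PB.snd)).add
      (EvA.PB.fst.mul (EvA.PB.pw _))).add (EvA.PB.pw _)).add EvA.PB.fst
  | la o p i e hp hi he =>
    exact fun m => (((((hp m).add (hi m)).add (EvA.PB.sum _ (fun j _ =>
      (he j (m + 2)).comp ((hi m).add EvA.PB.snd)))).add (EvA.PB.pw _)).add EvA.PB.fst)
  | iso o p i w hp hi hw =>
    exact fun m => (((((hp m).add (hi m)).add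
      ((hw (o.r + m)).comp ((hi m).add EvA.PB.snd))).add (EvA.PB.pw _)).add EvA.PB.fst)

/-- the bound is polynomial -/
theorem Tm.bd_poly {Γ : Voc} (t : Tm Γ) (m : ℕ) :
    ∃ e : ℕ, ∀ b q : ℕ, t.bd b q m ≤ (b + q + 2) ^ e := bd_poly' t m

theorem eval_smul' {Γ : Voc} {A K : Type} [Group K] [MulAction K A] (U : Finset A) (S : Str Γ A)
    (ns b : ℕ) (k : K) (hU : ∀ a, k • a ∈ U ↔ a ∈ U)
    (hS : ∀ (r : Γ.R) (x : Fin (Γ.ar r) → A), S r (fun i => k • x i) ↔ S r x)
    (t : Tm Γ) : ∀ (ρ : List (HF A)),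
    k • eval U S ns b t ρ = eval U S ns b t (ρ.map fun x => k • x) := by
  induction t with
  | var i =>
    intro ρ
    show k • ρ.getD i HF.emp = (ρ.map fun x => k • x).getD i HF.emp
    rw [List.getD_eq_getElem?_getD, List.getD_eq_getElem?_getD, List.getElem?_map]
    cases ρ[i]? with
    | none => simp [EvA.smul_emp]
    | some x => simp
  | empty => intro ρ; exact EvA.smul_emp k
  | atoms =>
    intro ρ
    show k • HF.mk (U.image HF.atom) = HF.mk (U.image HF.atom)
    rw [HF.smul_mk]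
    congr 1
    ext y
    simp only [mem_image, exists_exists_and_eq_and, HF.smul_atom]
    constructor
    · rintro ⟨a, ha, rfl⟩
      exact ⟨k • a, (hU a).2 ha, rfl⟩
    · rintro ⟨a, ha, rfl⟩
      refine ⟨k⁻¹ • a, ?_, by rw [smul_inv_smul]⟩
      rw [← hU, smul_inv_smul]; exact ha
  | pair s t hs ht =>
    intro ρ
    show k • HF.pr _ _ = HF.pr _ _
    rw [EvA.smul_pr, hs, ht]
  | union t ht =>
    intro ρ
    show k • HF.un _ = HF.un _
    rw [EvA.smul_un, ht]
  | uniq t ht =>
    intro ρ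
    show k • HF.uq _ = HF.uq _
    rw [EvA.smul_uq, ht]
  | card t ht =>
    intro ρ
    show k • HF.ord _ = HF.ord _
    rw [HF.smul_ord, ← ht, EvA.card_elems_smul]
  | eq s t hs ht =>
    intro ρ
    show k • HF.tv _ = HF.tv _
    rw [EvA.smul_tv, ← hs, ← ht]
    congr 1
    exact propext ⟨fun e => by rw [e], fun e => smul_left_cancel k e⟩
  | mem s t hs ht =>
    intro ρ
    show k • HF.tv _ = HF.tv _
    rw [EvA.smul_tv, ← hs, ← ht, HF.smul_mem_elems]
  | rel r ts ih =>
    intro ρ
    show k • HF.tv _ = HF.tv _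
    rw [EvA.smul_tv]
    congr 1
    apply propext
    constructor
    · rintro ⟨x, hx, hr⟩
      refine ⟨fun i => k • x i, fun i => ?_, (hS r x).2 hr⟩
      rw [← ih, hx, HF.smul_atom]
    · rintro ⟨x, hx, hr⟩
      refine ⟨fun i => k⁻¹ • x i, fun i => ?_, ?_⟩
      · have h1 := hx i
        rw [← ih] at h1
        rw [← HF.smul_atom, ← h1, inv_smul_smul]
      · rw [← hS]
        simpa only [smul_inv_smul] using hr
  | neg t ht =>
    intro ρ
    show k • HF.tv _ = HF.tv _
    rw [EvA.smul_tv, ← ht, EvA.smul_eq_ord]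
  | and s t hs ht =>
    intro ρ
    show k • HF.tv _ = HF.tv _
    rw [EvA.smul_tv, ← hs, ← ht]
    simp only [ne_eq, EvA.smul_eq_ord]
  | comp s t c hs ht hc =>
    intro ρ
    show k • HF.mk _ = HF.mk _
    rw [HF.smul_mk, ← ht, HF.elems_smul]
    congr 1
    rw [Finset.image_image, Finset.filter_image, Finset.image_image]
    have hfil : (HF.elems (eval U S ns b t ρ)).filter (fun x => eval U S ns b c (x :: ρ) ≠ HF.ord 0) =
        (HF.elems (eval U S ns b t ρ)).filter
          (fun x => eval U S ns b c ((k • x) :: ρ.map fun x => k • x) ≠ HF.ord 0) := by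
      apply Finset.filter_congr
      intro x _
      have := hc (x :: ρ)
      rw [List.map_cons] at this
      rw [← this, ne_eq, ne_eq, EvA.smul_eq_ord]
    rw [hfil]
    apply Finset.image_congr
    intro x _
    exact hs (x :: ρ)
  | iter t ht =>
    intro ρ
    show k • HF.itr ns b _ = HF.itr ns b _
    exact EvA.smul_itr ns b k (fun x => ht (x :: ρ))
  | la o p i e hp hi he =>
    intro ρ
    show k • HF.ord _ = HF.ord _
    rw [HF.smul_ord, ← hp, ← hi]
    have hn : ∀ x : HF A, num (k • x) = num x := fun x => num_congr fun n => EvA.smul_eq_ord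
    rw [hn]
    congr 1
    refine o.val_image _ _ _ _ (fun x => k • x) (fun x _ y _ h => MulAction.injective k h)
      (HF.elems_smul k _) _ _ ?_
    intro j x y x' y' hx' hy'
    have h1 := he j (y.1 :: x.1 :: ρ)
    rw [List.map_cons, List.map_cons] at h1
    rw [hx', hy', ← h1, hn]
  | iso o p i w hp hi hw =>
    intro ρ
    show k • HF.ord _ = HF.ord _
    rw [HF.smul_ord, ← hp, ← hi]
    have hn : ∀ x : HF A, num (k • x) = num x := fun x => num_congr fun n => EvA.smul_eq_ord
    rw [hn]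
    congr 1
    refine o.val_image _ _ _ _ (fun x => k • x) (fun x _ y _ h => MulAction.injective k h)
      (HF.elems_smul k _) _ _ ?_
    intro x x' hx
    have h1 := hw (List.ofFn (fun j => (x j).1) ++ ρ)
    rw [List.map_append, List.map_ofFn] at h1
    have h2 : (fun j => (x' j).1) = (fun y => k • y) ∘ (fun j => (x j).1) := funext hx
    rw [h2, ← h1, hn]

/-- the evaluation commutes with automorphisms -/
theorem eval_smul {Γ : Voc} {A K : Type} [Group K] [MulAction K A] (U : Finset A) (S : Str Γ A)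
    (ns b : ℕ) (k : K) (hU : ∀ a, k • a ∈ U ↔ a ∈ U)
    (hS : ∀ (r : Γ.R) (x : Fin (Γ.ar r) → A), S r (fun i => k • x i) ↔ S r x)
    (t : Tm Γ) (ρ : List (HF A)) :
    k • eval U S ns b t ρ = eval U S ns b t (ρ.map fun x => k • x) :=
  eval_smul' U S ns b k hU hS t ρ

end Pool.Agent.CLB
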