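import Pool.Agent.CLB.Def

/-!
# Examples of tame structures and mild rings; complete invariants
-/

set_option autoImplicit false

namespace Pool.Agent.CLB

open Finset Classical

/-- a point with a large orbit -/
theorem exists_orbit {I : Type} (σ : Equiv.Perm I) (j : ℕ) (h : orderOf σ = 2 ^ (j + 1)) :
    ∃ x : I, (σ ^ 2 ^ j) x ≠ x := by
  by_contra hc
  push Not at hc
  have h1 : σ ^ 2 ^ j = 1 := Equiv.ext hc
  have h2 := orderOf_dvd_of_pow_eq_one h1
  rw [h] at h2
  have h3 := Nat.le_of_dvd (by positivity) h2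
  rw [pow_succ] at h3
  have : 0 < 2 ^ j := by positivity
  omega

theorem aut_pow {I : Type} {r : ℕ} (w : (Fin r → I) → ℕ) (σ : Equiv.Perm I) (h : IsAut w σ)
    (n : ℕ) : IsAut w (σ ^ n) := by
  induction n with
  | zero => intro x; rfl
  | succ n ih =>
    intro x
    have h1 := ih (fun j => σ (x j))
    rw [h x] at h1
    rw [← h1]
    congr 1

/-- tournaments are tame -/
theorem tame_tour {I : Type} {N : ℕ} (hN : 1 ≤ N) (w : (Fin 2 → I) → ℕ)
    (h : ∀ x y : I, x ≠ y → (w ![x, y] = 0 ↔ w ![y, x] ≠ 0)) : Tame N w := by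
  refine ⟨∅, by simp, fun σ hσ _ j hj => ?_⟩
  rcases j with _ | j
  · simpa using hN
  · exfalso
    obtain ⟨x, hx⟩ := exists_orbit σ j hj
    set τ := σ ^ 2 ^ j with hτ
    have h1 : τ (τ x) = x := by
      have : τ * τ = 1 := by
        rw [hτ, ← pow_add, ← two_mul, ← pow_succ', ← hj, pow_orderOf_eq_one]
      calc τ (τ x) = (τ * τ) x := rfl
        _ = x := by rw [this]; rfl
    have h2 := aut_pow w σ hσ (2 ^ j) ![x, τ x]
    have h3 : (fun j => (τ (![x, τ x] j) : I)) = ![τ x, x] := by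
      funext j
      fin_cases j
      · rfl
      · exact h1
    rw [← hτ, h3] at h2
    have h4 := h (τ x) x hx
    rw [h2] at h4
    tauto

/-- structures with small orbits, after some elements are fixed, are tame -/
theorem tame_orb {I : Type} {N r c : ℕ} (w : (Fin r → I) → ℕ) (hc : c ^ 200 ≤ N)
    (h1 : 1 ≤ N) (D : Finset I) (hD : D.card ^ 200 ≤ N)
    (h : ∀ (x : I) (T : Finset I), (∀ y ∈ T, ∃ σ : Equiv.Perm I, IsAut w σ ∧
      (∀ d ∈ D, σ d = d) ∧ σ x = y) → T.card ≤ c) : Tame N w := by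
  refine ⟨D, hD, fun σ hσ hf j hj => ?_⟩
  rcases j with _ | j
  · simpa using h1
  · obtain ⟨x, hx⟩ := exists_orbit σ j hj
    refine (Nat.pow_le_pow_left ?_ 200).trans hc
    have hfix : ∀ n : ℕ, ∀ d ∈ D, (σ ^ n) d = d := by
      intro n d hd
      induction n with
      | zero => rfl
      | succ n ih => rw [pow_succ, Equiv.Perm.mul_apply, hf d hd, ih]
    have h2 := h x ((Finset.range (2 ^ (j + 1))).image (fun n => (σ ^ n) x)) (by
      intro y hy
      obtain ⟨n, _, rfl⟩ := Finset.mem_image.1 hy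
      exact ⟨σ ^ n, aut_pow w σ hσ n, hfix n, rfl⟩)
    rwa [Finset.card_image_of_injOn, Finset.card_range] at h2
    have hp : Function.minimalPeriod σ x = 2 ^ (j + 1) := by
      have e1 : Function.IsPeriodicPt σ (2 ^ (j + 1)) x := by
        have : (σ ^ 2 ^ (j + 1)) x = x := by rw [← hj, pow_orderOf_eq_one]; rfl
        rwa [← Equiv.Perm.iterate_eq_pow] at this
      have e2 : ¬ Function.IsPeriodicPt σ (2 ^ j) x := by
        intro e
        apply hx
        rw [← Equiv.Perm.iterate_eq_pow]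
        exact e
      exact Function.minimalPeriod_eq_prime_pow e2 e1
    intro a ha b hb hab
    have ha' : a < 2 ^ (j + 1) := Finset.mem_range.1 (by simpa using ha)
    have hb' : b < 2 ^ (j + 1) := Finset.mem_range.1 (by simpa using hb)
    have hab' : σ^[a] x = σ^[b] x := by
      simp only [Equiv.Perm.iterate_eq_pow]
      exact hab
    rw [← hp] at ha' hb'
    exact (Function.iterate_injOn_Iio_minimalPeriod (f := σ) (x := x)) ha' hb' hab'

/-- structures with small colour classes are tame; the colour of `x` is `w (x, …, x)` -/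
theorem tame_col {I : Type} {N r c : ℕ} (w : (Fin r → I) → ℕ) (hc : c ^ 200 ≤ N) (h1 : 1 ≤ N)
    (h : ∀ (T : Finset I) (q : ℕ), (∀ x ∈ T, w (fun _ => x) = q) → T.card ≤ c) : Tame N w := by
  refine tame_orb w hc h1 ∅ (by simp) (fun x T hT => h T (w (fun _ => x)) (fun y hy => ?_))
  obtain ⟨σ, hσ, _, rfl⟩ := hT y hy
  exact hσ (fun _ => x)

/-- a ring in which a small number is `0` is mild -/
theorem mild_char {N c : ℕ} (hc : c ^ 200 ≤ N) (h0 : 0 < c) (R : Type) [Ring R]
    (h : (c : R) = 0) : Mild N R := by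
  obtain ⟨a, m, hm, rfl⟩ := Nat.exists_eq_two_pow_mul_odd h0.ne'
  obtain ⟨k, rfl⟩ := hm
  have hm0 : 0 < 2 * k + 1 := by omega
  push_cast at h
  have h2 : (2 : R) ^ a = 2 ^ (a + 1) * (-(k : R)) := by
    have : (2 : R) ^ a * (2 * k + 1) = 2 ^ a + 2 ^ (a + 1) * k := by
      rw [mul_add, mul_one, pow_succ, mul_assoc, add_comm]
    rw [this] at h
    rw [mul_neg]
    exact eq_neg_of_add_eq_zero_left h
  have hcen : ∀ x : R, -(k : R) * x = x * -(k : R) := by
    intro x
    rw [neg_mul, mul_neg, Nat.cast_comm]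
  rcases a with _ | a
  · refine ⟨0, ?_, -(k : R), hcen, ?_⟩
    · have : 1 ≤ (2 ^ 0 * (2 * k + 1)) ^ 200 := Nat.one_le_pow _ _ (by positivity)
      simpa using this.trans hc
    · have h3 : (2 : R) * 2 ^ 0 = 2 * (2 ^ (0 + 1) * (-(k : R))) := congrArg (fun y => 2 * y) h2
      rw [← mul_assoc, ← pow_succ', ← pow_succ'] at h3
      exact h3
  · refine ⟨a, (Nat.pow_le_pow_left ?_ 200).trans hc, -(k : R), hcen, h2⟩
    calc 2 ^ a ≤ 2 ^ (a + 1) := Nat.pow_le_pow_right (by norm_num) (by omega)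
      _ ≤ 2 ^ (a + 1) * (2 * k + 1) := Nat.le_mul_of_pos_right _ hm0

/-- a ring in which `2` is `0` or has an inverse is mild; in particular all fields -/
theorem mild_field {N : ℕ} (hN : 1 ≤ N) (F : Type) [Field F] : Mild N F := by
  refine ⟨0, by simpa using hN, ?_⟩
  by_cases h : (2 : F) = 0
  · exact ⟨0, fun x => by ring, by simp [h]⟩
  · refine ⟨2⁻¹, fun x => by ring, ?_⟩
    field_simp
    ring

/-- structures on the sets `Fin n` -/
abbrev FinS (r : ℕ) : Type := Σ n : ℕ, ((Fin r → Fin n) → ℕ)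

/-- isomorphism -/
def finS (r : ℕ) : Setoid (FinS r) where
  r A B := ∃ e : Fin A.1 ≃ Fin B.1, ∀ x : Fin r → Fin A.1, B.2 (fun j => e (x j)) = A.2 x
  iseqv := by
    refine ⟨fun A => ⟨Equiv.refl _, fun x => rfl⟩, ?_, ?_⟩
    · rintro A B ⟨e, he⟩
      refine ⟨e.symm, fun x => ?_⟩
      rw [← he]
      simp
    · rintro A B C ⟨e, he⟩ ⟨f, hf⟩
      exact ⟨e.trans f, fun x => (hf _).trans (he x)⟩

/-- complete invariants of structures with an `r`-ary function, as natural numbers -/
theorem complete_inv (r : ℕ) : ∃ o : IsoOp, ∃ h : o.r = r, ∀ (p : ℕ) (I J : Type) [Fintype I]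
    [Fintype J] (w : (Fin o.r → I) → ℕ) (v : (Fin o.r → J) → ℕ),
    o.f p I w = o.f p J v ↔ ∃ e : I ≃ J, ∀ x, v (fun j => e (x j)) = w x := by
  have hcn : Countable (Quotient (finS r)) := inferInstance
  obtain ⟨en, hen⟩ := hcn.exists_injective_nat
  let cl : ∀ (I : Type) [Fintype I], ((Fin r → I) → ℕ) → FinS r := fun I _ w =>
    ⟨Fintype.card I, fun x => w (fun j => (Fintype.equivFin I).symm (x j))⟩
  have key : ∀ (I J : Type) [Fintype I] [Fintype J] (w : (Fin r → I) → ℕ)
      (v : (Fin r → J) → ℕ), (finS r).r (cl I w) (cl J v) ↔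
        ∃ e : I ≃ J, ∀ x, v (fun j => e (x j)) = w x := by
    intro I J _ _ w v
    constructor
    · rintro ⟨e, he⟩
      refine ⟨(Fintype.equivFin I).trans (e.trans (Fintype.equivFin J).symm), fun x => ?_⟩
      have h1 := he (fun j => Fintype.equivFin I (x j))
      simpa [cl] using h1
    · rintro ⟨e, he⟩
      refine ⟨(Fintype.equivFin I).symm.trans (e.trans (Fintype.equivFin J)), fun x => ?_⟩
      have h1 := he (fun j => (Fintype.equivFin I).symm (x j))
      simpa [cl] using h1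
  have key2 : ∀ (I J : Type) [Fintype I] [Fintype J] (w : (Fin r → I) → ℕ)
      (v : (Fin r → J) → ℕ), en (Quotient.mk (finS r) (cl I w)) =
        en (Quotient.mk (finS r) (cl J v)) ↔
        ∃ e : I ≃ J, ∀ x, v (fun j => e (x j)) = w x := by
    intro I J _ _ w v
    rw [hen.eq_iff, ← key]
    exact Quotient.eq (r := finS r)
  exact ⟨⟨r, fun _ I _ w => en (Quotient.mk (finS r) (cl I w)),
    fun _ I J _ _ e w v h => (key2 I J w v).2 ⟨e, h⟩⟩, rfl, fun _ I J _ _ w v => key2 I J w v⟩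

end Pool.Agent.CLB
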