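import Pool.Agent.CLA.In5
import Pool.Agent.CLB.Iso

/-!
# Intertwiners over commutative rings in which two is invertible

The same text as in `Pool/Agent/CLA/In4.lean` and `Pool/Agent/CLA/In5.lean` with commutative rings
instead of fields.
-/

set_option autoImplicit false
set_option linter.unusedSectionVars false

namespace Pool.Agent.CLB

open Finset Classical Matrix
open Pool.Agent.CPT
open Pool.Agent.CLA hiding Tm eval Accepts

variable {A I K : Type} [Fintype A] [Fintype I] [Fintype K] [Group K] [MulAction K A]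

theorem GD_card_unit {F : Fr A I K} {D : Finset I} {R : Type} [CommRing R] (h2 : IsUnit (2 : R))
    {a : ℕ} (ha : ∀ g ∈ F.G, g ^ (2 ^ a) = 1) : IsUnit ((GD F D).card : R) := by
  have h1 : IsPGroup 2 (GDs F D) := fun g => ⟨a, Subtype.ext (ha g.1 g.2.1)⟩
  have : Fact (Nat.Prime 2) := ⟨Nat.prime_two⟩
  obtain ⟨n, hn⟩ := IsPGroup.iff_card.1 h1
  have h3 : (GD F D).card = 2 ^ n := by
    rw [← hn, Nat.card_eq_fintype_card, Fintype.card_subtype]
    rfl
  rw [h3]
  push_cast
  exact h2.pow n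

/-- the weights -/
noncomputable def wU (F : Fr A I K) (R : Type) [CommRing R] (D : Finset I) (cD : K) (Y : Finset I)
    (c : K) : R :=
  Ring.inverse ((GD F D).card : R) * ∑ g ∈ GD F D, if ex F D cD Y * g = c then 1 else 0

section wd

variable {F : Fr A I K} {s : ℕ} {R : Type} [CommRing R] {X D Y : Finset I} {k cD : K} {B : ℕ}
  {Z : Finset (HF A)}

theorem wU_sum (f : K → R) : ∑ c, wU F R D cD Y c * f c =
    Ring.inverse ((GD F D).card : R) * ∑ g ∈ GD F D, f (ex F D cD Y * g) := by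
  unfold wU
  simp_rw [mul_assoc, Finset.sum_mul]
  rw [← Finset.mul_sum, Finset.sum_comm]
  congr 1
  refine Finset.sum_congr rfl fun g _ => ?_
  simp [ite_mul]

theorem wU_filter (p : K → Prop) : ∑ c ∈ univ.filter p, wU F R D cD Y c =
    Ring.inverse ((GD F D).card : R) * ∑ g ∈ GD F D, if p (ex F D cD Y * g) then 1 else 0 := by
  rw [← wU_sum (fun c => if p c then (1 : R) else 0), sum_filter]
  refine Finset.sum_congr rfl fun c _ => ?_
  split_ifs <;> simp

theorem wU_ne {c : K} (h : wU F R D cD Y c ≠ 0) : ∃ g ∈ GD F D, ex F D cD Y * g = c := by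
  by_contra hn
  push Not at hn
  apply h
  unfold wU
  rw [Finset.sum_eq_zero fun g hg => if_neg (hn g hg), mul_zero]

/-- the uniform measure on the extensions of `cD` -/
noncomputable def uMs (F : Fr A I K) (R : Type) [CommRing R] {X D : Finset I} {k cD : K} {B : ℕ}
    (hXD : X ⊆ D) (hc : cD ∈ F.Th D) (hk : Agr F.pl X k cD)
    (hB : D.card + B ≤ F.L + X.card) : Ms F R X k B where
  w := wU F R D cD
  th := by
    intro Y c hXY hY h
    obtain ⟨g, hg, rfl⟩ := wU_ne h
    have h1 := card_un hXD hXY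
    rw [mem_GD] at hg
    exact F.Th_anti subset_union_right (Th_mulr F hg.1 (ex_spec hc (by omega)).1)
  ag := by
    intro Y c hXY hY h
    obtain ⟨g, hg, rfl⟩ := wU_ne h
    have h1 := card_un hXD hXY
    rw [mem_GD] at hg
    have h2 : Agr F.pl D (ex F D cD Y) (ex F D cD Y * g) := ag_mul_iff.2 hg.2
    exact ag_trans hk (ag_anti hXD (ag_trans (ex_spec hc (by omega)).2 h2))
  cons := by
    intro Y Y' hXY hYY hY p hp
    rw [wU_filter, wU_filter]
    congr 1
    have h1 := card_un hXD (hXY.trans hYY)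
    have h2 : D ∪ Y ⊆ D ∪ Y' := union_subset_union_right hYY
    have h3 := card_le_card h2
    obtain ⟨e1, e2⟩ := ex_spec (Y := Y') hc (by omega)
    obtain ⟨e3, e4⟩ := ex_spec (Y := Y) hc (by omega)
    obtain ⟨h, hh, h5⟩ := F.Th_hom (by omega) e3 (F.Th_anti h2 e1)
    have h6 : h ∈ GD F D := by
      rw [mem_GD]
      refine ⟨hh, ?_⟩
      rw [← ag_mul_iff (k := ex F D cD Y)]
      exact ag_trans (ag_symm e4) (ag_trans e2 (ag_anti subset_union_left h5))
    rw [← GD_sum_mul' (fun g => if p (ex F D cD Y * g) then (1 : R) else 0) h6]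
    refine Finset.sum_congr rfl fun g _ => ?_
    have h7 : p (ex F D cD Y' * g) ↔ p (ex F D cD Y * (h * g)) := by
      refine hp _ _ ?_
      have h8 := ag_right F (ag_anti (subset_union_right (s₁ := D) (s₂ := Y)) h5) g
      rwa [mul_assoc] at h8
    simp only [h7]

end wd


/-! ### The idempotents -/

section idem

variable {F : Fr A I K} {s : ℕ} {R : Type} [CommRing R] {X D : Finset I} {k cD : K} {B : ℕ}
  {Z : Finset (HF A)}

/-- the projection on the vectors invariant under the elements trivial on `D` -/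
noncomputable def Eu (F : Fr A I K) (Z : Finset (HF A)) (R : Type) [CommRing R] (D : Finset I) :
    Matrix {z // z ∈ Z} {z // z ∈ Z} R := Ring.inverse ((GD F D).card : R) • ∑ g ∈ GD F D, Pm Z R g

theorem mul_Eu {m : Type} {M : Matrix m {z // z ∈ Z} R} {N : Matrix m {z // z ∈ Z} R}
    (hN : IsUnit ((GD F D).card : R)) (h : ∀ g ∈ GD F D, M * Pm Z R g = N) : M * Eu F Z R D = N := by
  unfold Eu
  rw [Matrix.mul_smul, Matrix.mul_sum, Finset.sum_congr rfl h, sum_const, ← Nat.cast_smul_eq_nsmul R,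
    smul_smul, Ring.inverse_mul_cancel _ hN, one_smul]

theorem Eu_comm {M : Matrix {z // z ∈ Z} {z // z ∈ Z} R}
    (h : ∀ g ∈ GD F D, M * Pm Z R g = Pm Z R g * M) : M * Eu F Z R D = Eu F Z R D * M := by
  unfold Eu
  rw [Matrix.mul_smul, Matrix.mul_sum, Matrix.smul_mul, Matrix.sum_mul, Finset.sum_congr rfl h]

theorem Eu_single (hN : IsUnit ((GD F D).card : R)) (y : {z // z ∈ Z})
    (hD : Supp F.pl F.G D y.1) : (Eu F Z R D).mulVec (Pi.single y 1) = Pi.single y 1 := by
  have h1 : ∀ g ∈ GD F D, (Pm Z R g).mulVec (Pi.single y 1) = Pi.single y 1 := by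
    intro g hg
    rw [mem_GD] at hg
    ext z
    rw [Matrix.mulVec_single_one, Matrix.col_apply, Pi.single_apply]
    simp only [Pm]
    rw [hD.1 g hg.1 hg.2]
    by_cases h : z = y
    · rw [if_pos h, if_pos (by rw [h])]
    · rw [if_neg h, if_neg (fun h' => h (Subtype.ext h'.symm))]
  unfold Eu
  rw [Matrix.smul_mulVec, Matrix.sum_mulVec, Finset.sum_congr rfl h1, sum_const,
    ← Nat.cast_smul_eq_nsmul R, smul_smul, Ring.inverse_mul_cancel _ hN, one_smul]

/-- the matrix of the uniform measure is invariant -/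
theorem uMs_Pm (hXD : X ⊆ D) (hcD : cD ∈ F.Th D) (hk : Agr F.pl X k cD)
    (hB : D.card + B ≤ F.L + X.card) (hBL : B ≤ F.L) (hZ : ∀ y ∈ Z, HS F.pl F.G s y)
    (hG : ∀ g ∈ F.G, Trv F.pl X g → ∀ y ∈ Z, g • y ∈ Z)
    (hDB : D.card + 4 * s ≤ B) {g : K} (hg : g ∈ GD F D) :
    (uMs F R hXD hcD hk hB).mat s Z * Pm Z R g = (uMs F R hXD hcD hk hB).mat s Z := by
  have hg' := mem_GD.1 hg
  ext y' y
  rw [mul_Pm_apply _ (hG g hg'.1 (trv_anti hXD hg'.2))]
  have hs := hZ y.1 y.2
  set E := D ∪ sp F s y.1 with hE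
  have hEc : E.card ≤ D.card + s := (card_union_le _ _).trans (Nat.add_le_add_left (sp_card _) _)
  have hEs : Supp F.pl F.G E y.1 := F.supp_mono (sp_supp (hZ y.1 y.2)) subset_union_right
  have hXE : X ⊆ E := hXD.trans subset_union_left
  show (uMs F R hXD hcD hk hB).S s y'.1 (g • y.1) = (uMs F R hXD hcD hk hB).S s y'.1 y.1
  rw [(uMs F R hXD hcD hk hB).S_eq hBL (Fr.HS.smul F s hs g) hXE (F.supp_smul hEs g) (by omega),
    (uMs F R hXD hcD hk hB).S_eq hBL hs hXE hEs (by omega)]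
  show ∑ c ∈ univ.filter (fun c => F.T s (g • y.1) E c = y'.1), wU F R D cD E c =
    ∑ c ∈ univ.filter (fun c => F.T s y.1 E c = y'.1), wU F R D cD E c
  rw [wU_filter, wU_filter]
  congr 1
  rw [← GD_sum_mul (fun h => if F.T s y.1 E (ex F D cD E * h) = y'.1 then (1 : R) else 0) hg]
  refine Finset.sum_congr rfl fun h _ => ?_
  rw [← mul_assoc, T_mulr F s hg'.1]

/-- the Gram matrix of the uniform measure -/
theorem uMs_gram (hXD : X ⊆ D) (hcD : cD ∈ F.Th D) (hk : Agr F.pl X k cD)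
    (hB : D.card + B ≤ F.L + X.card) (hBL : B ≤ F.L) (hZ : ∀ y ∈ Z, HS F.pl F.G s y)
    (h9 : 9 * s ≤ F.L) (hN : IsUnit ((GD F D).card : R))
    (hDB : D.card + 5 * s ≤ B) :
    ((uMs F R hXD hcD hk hB).mat s Z)ᵀ * (uMs F R hXD hcD hk hB).mat s Z = Eu F Z R D := by
  ext z y
  set E := D ∪ sp F s y.1 with hE
  have hEc : E.card ≤ D.card + s := (card_union_le _ _).trans (Nat.add_le_add_left (sp_card _) _)
  have hEs : Supp F.pl F.G E y.1 := F.supp_mono (sp_supp (hZ y.1 y.2)) subset_union_right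
  have hXE : X ⊆ E := hXD.trans subset_union_left
  have hDE : D ⊆ E := subset_union_left
  have hDE' : D ∪ E = E := union_eq_right.2 hDE
  rw [(uMs F R hXD hcD hk hB).ptp hBL hZ h9 hXE (by omega) z y hEs]
  obtain ⟨e1, e2⟩ := ex_spec (F := F) (D := D) (Y := E) (cD := cD) hcD (by rw [hDE']; omega)
  rw [hDE'] at e1
  have h1 : ∀ g' ∈ GD F D, ∀ g ∈ GD F D,
      Pm Z R (gam F X E (ex F D cD E * g) (ex F D cD E * g')) z y = Pm Z R (g⁻¹ * g') z y := by
    intro g' hg' g hg
    have m1 := mem_GD.1 hg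
    have m2 := mem_GD.1 hg'
    have a1 : Agr F.pl X (ex F D cD E * g) (ex F D cD E * g') :=
      ag_trans (ag_symm (ag_mul_iff.2 (trv_anti hXD m1.2))) (ag_mul_iff.2 (trv_anti hXD m2.2))
    have a2 := gam_agr hXE (by omega) (Th_mulr F m1.1 e1) (Th_mulr F m2.1 e1) a1
    set γ := gam F X E (ex F D cD E * g) (ex F D cD E * g') with hγ
    have hγG : γ ∈ F.G := gam_mem
    have a3 : Agr F.pl E (g⁻¹ * g') γ := by
      have := ag_left a2 (g⁻¹ * (ex F D cD E)⁻¹)
      have e3 : g⁻¹ * (ex F D cD E)⁻¹ * (ex F D cD E * g') = g⁻¹ * g' := by group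
      have e4 : g⁻¹ * (ex F D cD E)⁻¹ * (ex F D cD E * g * γ) = γ := by group
      rwa [e3, e4] at this
    have a4 : Trv F.pl E (γ⁻¹ * (g⁻¹ * g')) := by
      rw [← ag_mul_iff (k := γ), mul_inv_cancel_left]
      exact ag_symm a3
    have a5 : (γ⁻¹ * (g⁻¹ * g')) • y.1 = y.1 :=
      hEs.1 _ (mul_mem (inv_mem hγG) (mul_mem (inv_mem m1.1) m2.1)) a4
    rw [mul_smul, inv_smul_eq_iff] at a5
    simp only [Pm, a5]
  show ∑ c' : K, ∑ c : K, (wU F R D cD E c' * wU F R D cD E c) *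
    Pm Z R (gam F X E c c') z y = Eu F Z R D z y
  have h2 : ∀ c' : K, ∑ c : K, (wU F R D cD E c' * wU F R D cD E c) * Pm Z R (gam F X E c c') z y =
      wU F R D cD E c' * (Ring.inverse ((GD F D).card : R) * ∑ g ∈ GD F D,
        Pm Z R (gam F X E (ex F D cD E * g) c') z y) := by
    intro c'
    rw [← wU_sum (fun c => Pm Z R (gam F X E c c') z y), Finset.mul_sum]
    exact Finset.sum_congr rfl fun c _ => by ring
  rw [Finset.sum_congr rfl (fun c' _ => h2 c'),
    wU_sum (fun c' => Ring.inverse ((GD F D).card : R) * ∑ g ∈ GD F D,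
        Pm Z R (gam F X E (ex F D cD E * g) c') z y)]
  have h3 : ∀ g' ∈ GD F D, Ring.inverse ((GD F D).card : R) * ∑ g ∈ GD F D,
        Pm Z R (gam F X E (ex F D cD E * g) (ex F D cD E * g')) z y = Eu F Z R D z y := by
    intro g' hg'
    unfold Eu
    rw [Finset.sum_congr rfl (fun g hg => h1 g' hg' g hg),
      GD_sum_inv (fun g => Pm Z R (g * g') z y), GD_sum_mul (fun g => Pm Z R g z y) hg']
    simp only [Matrix.smul_apply, Matrix.sum_apply, smul_eq_mul]
  rw [Finset.sum_congr rfl h3, sum_const, nsmul_eq_mul, ← mul_assoc, Ring.inverse_mul_cancel _ hN, one_mul]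

/-- intertwiners over rings in which two is invertible -/
theorem int_unit (hk : k ∈ F.Th X) (hZ : ∀ y ∈ Z, HS F.pl F.G s y)
    (hG : ∀ g ∈ F.G, Trv F.pl X g → ∀ y ∈ Z, g • y ∈ Z)
    (hc : ∀ g ∈ F.G, ∀ h : K, g * h = h * g) (hN : ∀ D, IsUnit ((GD F D).card : R))
    (hX : X.card + 9 * s ≤ F.L) :
    ∃ (P : Matrix {z // z ∈ F.TF s Z X k} {z // z ∈ Z} R)
      (Q : Matrix {z // z ∈ Z} {z // z ∈ F.TF s Z X k} R), P * Q = 1 ∧ Q * P = 1 ∧
      ∀ M N, Trm F s X k Z M N → P * M = N * P := by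
  have h9 : 9 * s ≤ F.L := by omega
  set ι := {D : Finset I // X ⊆ D ∧ D.card ≤ X.card + s} with hι
  have hex : ∀ D : ι, ∃ c ∈ F.Th D.1, Agr F.pl X k c := fun D =>
    F.Th_ext D.2.1 (by have := D.2.2; omega) hk
  choose cc hcc hcA using hex
  set B := X.card + 6 * s with hB
  have hBL : B ≤ F.L := by omega
  have hBD : ∀ D : ι, D.1.card + B ≤ F.L + X.card := fun D => by have := D.2.2; omega
  let w : ∀ D : ι, Ms F R X k B := fun D => uMs F R D.2.1 (hcc D) (hcA D) (hBD D)
  let U : ι → Matrix {z // z ∈ F.TF s Z X k} {z // z ∈ Z} R := fun D => (w D).mat s Z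
  let E : ι → Matrix {z // z ∈ Z} {z // z ∈ Z} R := fun D => Eu F Z R D.1
  have hst : ∀ g ∈ F.G, Trv F.pl X g → ∀ y ∈ Z, g • y ∈ Z := hG
  have hUt : ∀ D, (U D)ᵀ * U D = E D := fun D =>
    uMs_gram D.2.1 (hcc D) (hcA D) (hBD D) hBL hZ h9 (hN _) (by have := D.2.2; omega)
  have hUE : ∀ D, U D * E D = U D := fun D =>
    mul_Eu (hN _) (fun g hg => uMs_Pm D.2.1 (hcc D) (hcA D) (hBD D) hBL hZ hG
      (by have := D.2.2; omega) hg)
  have hUU : ∀ i j l, (U i)ᵀ * U j * E l = E l * ((U i)ᵀ * U j) := by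
    intro i j l
    refine Eu_comm fun g hg => ?_
    have hg' := mem_GD.1 hg
    have ht := trv_anti l.2.1 hg'.2
    rw [Matrix.mul_assoc, (w j).mat_Pm hBL hZ hG hc (by omega) hg'.1 ht, ← Matrix.mul_assoc,
      (w i).mat_trans_Pm hBL hZ hG hc (by omega) hg'.1 ht, Matrix.mul_assoc]
  have hEE : ∀ i j, E i * E j = E j * E i := by
    intro i j
    refine Eu_comm fun g hg => ?_
    have hg' := mem_GD.1 hg
    refine (Eu_comm fun h hh => ?_).symm
    have hh' := mem_GD.1 hh
    rw [Pm_mul (hG h hh'.1 (trv_anti i.2.1 hh'.2)), Pm_mul (hG g hg'.1 (trv_anti j.2.1 hg'.2)),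
      hc g hg'.1]
  set l : List ι := (Finset.univ : Finset ι).toList with hl
  have hR : glR E l = 0 := by
    ext z y
    have hs := hZ y.1 y.2
    set D : Finset I := X ∪ sp F s y.1 with hD
    have hDc : D.card ≤ X.card + s :=
      (card_union_le _ _).trans (Nat.add_le_add_left (sp_card _) _)
    have hDs : Supp F.pl F.G D y.1 := F.supp_mono (sp_supp hs) subset_union_right
    have h1 := glR_mulVec (E := E) hEE (i := ⟨D, subset_union_left, hDc⟩)
      (Eu_single (hN _) y hDs) (l := l) (by rw [hl]; simp)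
    have h2 := congrFun h1 z
    rw [Matrix.mulVec_single_one, Matrix.col_apply] at h2
    rw [h2]
    rfl
  have hSS : (glS U E l)ᵀ * glS U E l = 1 := by
    rw [glS_gram hUt hUU hUE hEE, hR, sub_zero]
  have hcard : Fintype.card {z // z ∈ Z} = Fintype.card {z // z ∈ F.TF s Z X k} := by
    rw [Fintype.card_coe, Fintype.card_coe]
    exact (F.card_TF s hZ hG (by omega) (by omega) hk).symm
  refine ⟨glS U E l, (glS U E l)ᵀ, ?_, hSS, fun M N h => ?_⟩
  · exact (Matrix.mul_eq_one_comm_of_equiv (Fintype.equivOfCardEq hcard)).1 hSS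
  · refine glS_intertw (fun D => (w D).intertw hBL hZ hG h9 (by omega) h) (fun D => ?_) l
    refine Eu_comm fun g hg => ?_
    have hg' := mem_GD.1 hg
    exact h.Pm hZ hG hk hX hg'.1 (trv_anti D.2.1 hg'.2)

end idem


end Pool.Agent.CLB
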