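import Mathlib

/-!
# The choice of the parameters

`e` is the exponent of the bound of the program, `d` its depth; `s0` is the number of exceptional
squares, `5 s0 + 6` the size of the supports, `L` the bound of the frame, `h` the height of the comb
tree, `r` the parameter of the group lemma. The grid has side `2 ^ n`.
-/

set_option autoImplicit false

namespace Pool.Agent.CLB

private theorem three_pow (m : ℕ) (hm : 2 ≤ m) : 3 ^ m + m < 4 ^ m := by
  induction m, hm using Nat.le_induction with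
  | base => norm_num
  | succ m hm ih =>
    rw [pow_succ, pow_succ]
    omega

theorem num_all (d e : ℕ) : ∃ C : ℕ, ∀ n ≥ C, ∀ b N : ℕ, b ^ C ≤ 2 ^ (n * Nat.sqrt n) →
    N ≤ 2 ^ (80 * n) → ∃ s0 L h r : ℕ, (d + 9) * (5 * s0 + 6) ≤ L ∧
      L ^ 2 + (80 * n + 1) / 200 ≤ h ∧ L < 2 ^ n ∧
      h + 1 ≤ n ∧ 3 ^ h + h < 2 ^ n ∧ 1 ≤ r ∧ 2 * r + h ≤ n + 1 ∧
      ((max b (N + N) + 2) ^ e) ^ 2 < 2 ^ (r * (s0 + 1)) ∧ 2 * h ≤ n ∧ n ≤ 2 * h + 1 ∧
      10 ≤ n := by
  refine ⟨8 * ((d + 9) * (40 * e)) + (8 * ((d + 9) * (3360 * e + 46))) ^ 2 + 20,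
    fun n hn b N hb hN => ?_⟩
  set D1 := (d + 9) * (40 * e) with hD1
  set D2 := (d + 9) * (3360 * e + 46) with hD2
  set C := 8 * D1 + (8 * D2) ^ 2 + 20 with hC
  set q := Nat.sqrt n with hq
  have hq1 : q * q ≤ n := Nat.sqrt_le n
  have hq2 : 8 * D2 ≤ q := by
    rw [hq, Nat.le_sqrt]
    have : (8 * D2) ^ 2 = 8 * D2 * (8 * D2) := by ring
    omega
  set p := q / C with hp
  have hp1 : C * p ≤ q := Nat.mul_div_le q C
  have hCpos : 0 < C := by omega
  have hp2 : q < C * (p + 1) := by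
    have := Nat.lt_mul_div_succ q hCpos
    simpa [hp] using this
  have hDp : 8 * (D1 * p) ≤ q := by
    have : 8 * (D1 * p) = (8 * D1) * p := by ring
    rw [this]
    exact (Nat.mul_le_mul_right p (by omega)).trans hp1
  set K := e * (p + 84) with hK
  have hL : (d + 9) * (5 * (8 * K + 8) + 6) = D1 * p + D2 := by
    rw [hK, hD1, hD2]; ring
  have h4L : 4 * (D1 * p + D2) ≤ q := by omega
  have hn20 : 20 ≤ n := by omega
  have hn10 : 10 ≤ n := by omega
  have hqn : q ≤ n := Nat.sqrt_le_self n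
  have hm : 2 ≤ n / 2 := by omega
  refine ⟨8 * K + 8, D1 * p + D2, n / 2, (n + 1 - n / 2) / 2, hL.le, ?_, ?_, by omega, ?_, by omega,
    by omega, ?_, by omega, by omega, hn10⟩
  · have h1 : (4 * (D1 * p + D2)) * (4 * (D1 * p + D2)) ≤ q * q := Nat.mul_le_mul h4L h4L
    have h2 : (4 * (D1 * p + D2)) * (4 * (D1 * p + D2)) = 16 * (D1 * p + D2) ^ 2 := by ring
    generalize (D1 * p + D2) ^ 2 = x at h2 ⊢
    omega
  · have h1 : n < 2 ^ n := Nat.lt_two_pow_self
    omega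
  · have h1 := three_pow (n / 2) hm
    have h2 : 4 ^ (n / 2) ≤ 2 ^ n := by
      have : (4 : ℕ) ^ (n / 2) = 2 ^ (2 * (n / 2)) := by rw [pow_mul]; norm_num
      rw [this]
      exact Nat.pow_le_pow_right (by norm_num) (by omega)
    omega
  · have hb1 : b ≤ 2 ^ (n * (p + 2)) := by
      rcases Nat.eq_zero_or_pos b with h0 | h0
      · rw [h0]; exact Nat.zero_le _
      · have h1 : 2 ^ Nat.log 2 b ≤ b := Nat.pow_log_le_self 2 (by omega)
        have h2 : 2 ^ (Nat.log 2 b * C) ≤ 2 ^ (n * q) := by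
          rw [pow_mul]
          exact (Nat.pow_le_pow_left h1 C).trans hb
        have h3 := (Nat.pow_le_pow_iff_right (by norm_num : 1 < 2)).1 h2
        have h4 : Nat.log 2 b ≤ n * (p + 1) := by
          have h5 : n * q ≤ n * (C * (p + 1)) := Nat.mul_le_mul_left n hp2.le
          have h6 : n * (C * (p + 1)) = n * (p + 1) * C := by ring
          rw [h6] at h5
          exact Nat.le_of_mul_le_mul_right (h3.trans h5) hCpos
        have h7 : b < 2 ^ (Nat.log 2 b + 1) := Nat.lt_pow_succ_log_self (by norm_num) b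
        refine h7.le.trans (Nat.pow_le_pow_right (by norm_num) ?_)
        have : n * (p + 2) = n * (p + 1) + n := by ring
        omega
    have hN1 : N + N ≤ 2 ^ (n * (p + 83)) := by
      have h4 : N + N ≤ 2 ^ (80 * n + 1) := by rw [pow_succ]; omega
      refine h4.trans (Nat.pow_le_pow_right (by norm_num) ?_)
      have : n * (p + 83) = n * p + 80 * n + 3 * n := by ring
      omega
    have hb2 : b ≤ 2 ^ (n * (p + 83)) := hb1.trans (Nat.pow_le_pow_right (by norm_num)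
      (Nat.mul_le_mul_left n (by omega)))
    have h6 : 2 ≤ 2 ^ (n * (p + 83)) := by
      calc 2 = 2 ^ 1 := by norm_num
        _ ≤ _ := Nat.pow_le_pow_right (by norm_num) (by nlinarith)
    have h8 : max b (N + N) + 2 ≤ 2 ^ (n * (p + 84)) := by
      have h5 : max b (N + N) ≤ 2 ^ (n * (p + 83)) := max_le hb2 hN1
      calc max b (N + N) + 2 ≤ 2 ^ (n * (p + 83)) + 2 ^ (n * (p + 83)) := Nat.add_le_add h5 h6
        _ = 2 ^ (n * (p + 83) + 1) := by rw [pow_succ]; ring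
        _ ≤ _ := Nat.pow_le_pow_right (by norm_num) (by
          have : n * (p + 84) = n * (p + 83) + n := by ring
          omega)
    have h9 : (max b (N + N) + 2) ^ e ≤ 2 ^ (K * n) := by
      calc (max b (N + N) + 2) ^ e ≤ (2 ^ (n * (p + 84))) ^ e := Nat.pow_le_pow_left h8 e
        _ = 2 ^ (n * (p + 84) * e) := by rw [← pow_mul]
        _ = _ := by rw [hK]; congr 1; ring
    have h4 : n ≤ 4 * ((n + 1 - n / 2) / 2) := by omega
    generalize (n + 1 - n / 2) / 2 = r at h4 ⊢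
    have hr : 1 ≤ r := by omega
    calc ((max b (N + N) + 2) ^ e) ^ 2 ≤ (2 ^ (K * n)) ^ 2 := Nat.pow_le_pow_left h9 2
      _ = 2 ^ (K * n * 2) := by rw [← pow_mul]
      _ < 2 ^ (r * (8 * K + 8 + 1)) := by
        apply Nat.pow_lt_pow_right (by norm_num)
        have h5 : K * n ≤ K * (4 * r) := Nat.mul_le_mul_left K h4
        nlinarith

/-- a bound for the sizes of the bases -/
theorem le_two_pow {n h N d : ℕ} (hN : N ≤ 2 ^ (80 * n)) (hn : 10 ≤ n) (h1 : n ≤ 2 * h + 1)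
    (hd : d ^ 200 ≤ N + N) : d ≤ 2 ^ h := by
  by_contra hcon
  push Not at hcon
  have h2 : (2 ^ h) ^ 200 < d ^ 200 := Nat.pow_lt_pow_left hcon (by norm_num)
  have h3 : N + N ≤ 2 ^ (80 * n + 1) := by rw [pow_succ]; omega
  have h4 : 2 ^ (80 * n + 1) ≤ (2 ^ h) ^ 200 := by
    rw [← pow_mul]
    exact Nat.pow_le_pow_right (by norm_num) (by omega)
  omega

/-- a bound for the exponents of the rings -/
theorem le_div {n N j : ℕ} (hN : N ≤ 2 ^ (80 * n)) (hj : (2 ^ j) ^ 200 ≤ N + N) :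
    j ≤ (80 * n + 1) / 200 := by
  have h3 : N + N ≤ 2 ^ (80 * n + 1) := by rw [pow_succ]; omega
  have h4 : 2 ^ (j * 200) ≤ 2 ^ (80 * n + 1) := by
    rw [pow_mul]
    exact hj.trans h3
  have h5 := (Nat.pow_le_pow_iff_right (by norm_num : 1 < 2)).1 h4
  omega

/-- a bound for the orders of automorphisms -/
theorem le_of_two_pow {n h N j : ℕ} (hN : N ≤ 2 ^ (80 * n)) (hn : 10 ≤ n) (h1 : n ≤ 2 * h + 1)
    (hj : (2 ^ j) ^ 200 ≤ N + N) : j ≤ h :=
  (Nat.pow_le_pow_iff_right (by norm_num : 1 < 2)).1 (le_two_pow hN hn h1 hj)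

theorem sum_lt {n h L s d m : ℕ} (h1 : 2 * h ≤ n) (h2 : (d + 9) * s ≤ L)
    (h3 : L ^ 2 + m ≤ h) :
    L + 2 ^ h * s < 2 ^ n := by
  have h4 : s ≤ L := by
    have : (d + 9) * s = d * s + 9 * s := by ring
    have := Nat.zero_le (d * s)
    omega
  have h5' : L ≤ L ^ 2 := Nat.le_self_pow (by norm_num) L
  have h5 : L ≤ h := by omega
  have h6 : h < 2 ^ h := Nat.lt_two_pow_self
  have h7 : 2 ^ (2 * h) ≤ 2 ^ n := Nat.pow_le_pow_right (by norm_num) h1
  have h8 : 2 ^ (2 * h) = 2 ^ h * 2 ^ h := by rw [two_mul, pow_add]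
  have h9 : 2 ^ h * s ≤ 2 ^ h * h := Nat.mul_le_mul_left _ (h4.trans h5)
  have h10 : 2 ^ h * h + 2 ^ h ≤ 2 ^ h * 2 ^ h := by
    have : 2 ^ h * (h + 1) ≤ 2 ^ h * 2 ^ h := Nat.mul_le_mul_left _ h6
    rw [Nat.mul_add, mul_one] at this
    exact this
  omega

end Pool.Agent.CLB
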