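import Pool.Agent.CLA.Seq
import Pool.Agent.CLB.Main

/-!
# The sequence of pairs of graphs
-/

set_option autoImplicit false

namespace Pool.Agent.CLB

open Finset Classical
open Pool.Agent.CPT hiding Tm eval Accepts Twin
open Pool.Agent.CLA (GV PV gStr pStr sG sH sN sE sF)

/-- no program distinguishes the members of the sequence -/
theorem s_same (t : Tm PV) (t' : Tm GV) :
    ∃ C : ℕ, ∀ i ≥ C, ∀ a b : ℕ, b ^ C ≤ 2 ^ (i * Nat.sqrt i) →
      (Accepts (pStr (sG i).Adj (· ≤ ·) (sG i).Adj) t a b ↔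
        Accepts (pStr (sG i).Adj (· ≤ ·) (sH i).Adj) t a b) ∧
      (Accepts (gStr (sG i).Adj) t' a b ↔ Accepts (gStr (sH i).Adj) t' a b) := by
  obtain ⟨C, hC⟩ := twins_same t t'
  refine ⟨C, fun i hi a b hb => ?_⟩
  exact hC (i + 6) (by omega) _ (sE i) (sF i) a b
    (hb.trans (Nat.pow_le_pow_right (by norm_num)
      (Nat.mul_le_mul (by omega) (Nat.sqrt_le_sqrt (by omega)))))

end Pool.Agent.CLB
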