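import Pool.Agent.CLB.Def

/-!
# Examples of tame structures: Latin squares, structures with few automorphisms
-/

set_option autoImplicit false

namespace Pool.Agent.CLB

open Finset Classical

/-- a structure in which some set `D` with `D.card ^ 200 ≤ N` is fixed pointwise only by the trivial
automorphism is tame -/
theorem tame_of_rigid {I : Type} {N r : ℕ} (hN : 1 ≤ N) (w : (Fin r → I) → ℕ) (D : Finset I)
    (hD : D.card ^ 200 ≤ N)
    (h : ∀ s : Equiv.Perm I, IsAut w s → (∀ d ∈ D, s d = d) → s = 1) : Tame N w := by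
  refine ⟨D, hD, fun s hs hd j hj => ?_⟩
  rw [h s hs hd, orderOf_one] at hj
  rw [← hj, one_pow]
  exact hN

/-- the points fixed by all automorphisms which fix `D` pointwise -/
noncomputable def Fx {I : Type} [Fintype I] {r : ℕ} (w : (Fin r → I) → ℕ) (D : Finset I) :
    Finset I :=
  Finset.univ.filter fun x => ∀ s : Equiv.Perm I, IsAut w s → (∀ d ∈ D, s d = d) → s x = x

theorem mem_Fx {I : Type} [Fintype I] {r : ℕ} (w : (Fin r → I) → ℕ) (D : Finset I) (x : I) :
    x ∈ Fx w D ↔ ∀ s : Equiv.Perm I, IsAut w s → (∀ d ∈ D, s d = d) → s x = x := by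
  simp [Fx]

theorem latin_grow {I : Type} [Fintype I] {r : ℕ} (w : (Fin r → I) → ℕ) (op : I → I → I)
    (h1 : ∀ x, Function.Injective (op x)) (h2 : ∀ y, Function.Injective (fun x => op x y))
    (hw : ∀ s : Equiv.Perm I, IsAut w s → ∀ x y, s (op x y) = op (s x) (s y))
    (D : Finset I) (x : I) (hx : x ∉ Fx w D) :
    2 * (Fx w D).card ≤ (Fx w (insert x D)).card := by
  have hsub : Fx w D ⊆ Fx w (insert x D) := by
    intro y hy
    rw [mem_Fx] at hy ⊢
    exact fun s hs hd => hy s hs fun d hdd => hd d (Finset.mem_insert_of_mem hdd)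
  have himg : (Fx w D).image (fun h => op h x) ⊆ Fx w (insert x D) := by
    intro y hy
    rw [Finset.mem_image] at hy
    obtain ⟨h, hh, rfl⟩ := hy
    rw [mem_Fx] at hh ⊢
    intro s hs hd
    rw [hw s hs, hh s hs fun d hdd => hd d (Finset.mem_insert_of_mem hdd),
      hd x (Finset.mem_insert_self _ _)]
  have hdis : Disjoint (Fx w D) ((Fx w D).image (fun h => op h x)) := by
    rw [Finset.disjoint_left]
    intro y hy hy'
    rw [Finset.mem_image] at hy'
    obtain ⟨h, hh, rfl⟩ := hy'
    rw [mem_Fx] at hh hy hx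
    apply hx
    intro s hs hd
    have h3 := hy s hs hd
    rw [hw s hs, hh s hs hd] at h3
    exact h1 h h3
  have hcard : ((Fx w D).image (fun h => op h x)).card = (Fx w D).card :=
    Finset.card_image_of_injective _ (h2 x)
  calc 2 * (Fx w D).card = (Fx w D ∪ (Fx w D).image (fun h => op h x)).card := by
        rw [Finset.card_union_of_disjoint hdis, hcard, two_mul]
    _ ≤ _ := Finset.card_le_card (Finset.union_subset hsub himg)

/-- structures whose automorphisms preserve a Latin square (tables of groups, rings, loops, Steiner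
triple systems) with at most `2 ^ (N ^ (1 / 200) - 1)` elements are tame -/
theorem tame_latin {I : Type} [Fintype I] {N r : ℕ} (hN : 1 ≤ N) (w : (Fin r → I) → ℕ)
    (op : I → I → I)
    (h1 : ∀ x, Function.Injective (op x)) (h2 : ∀ y, Function.Injective (fun x => op x y))
    (hw : ∀ s : Equiv.Perm I, IsAut w s → ∀ x y, s (op x y) = op (s x) (s y))
    (hc : (Nat.log 2 (Fintype.card I) + 1) ^ 200 ≤ N) : Tame N w := by
  rcases isEmpty_or_nonempty I with hI | ⟨⟨x0⟩⟩
  · exact tame_of_rigid hN w ∅ (by simp) fun s _ _ => Subsingleton.elim _ _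
  have hk : ∀ k : ℕ, ∃ D : Finset I, D.card ≤ k + 1 ∧
      (Fx w D = Finset.univ ∨ 2 ^ k ≤ (Fx w D).card) := by
    intro k
    induction k with
    | zero =>
      refine ⟨{x0}, by simp, Or.inr ?_⟩
      rw [pow_zero, Nat.one_le_iff_ne_zero, Finset.card_ne_zero]
      refine ⟨x0, ?_⟩
      rw [mem_Fx]
      exact fun s _ hd => hd x0 (Finset.mem_singleton_self _)
    | succ k ih =>
      obtain ⟨D, hD, h⟩ := ih
      by_cases hu : Fx w D = Finset.univ
      · exact ⟨D, by omega, Or.inl hu⟩
      · obtain ⟨x, hx⟩ : ∃ x, x ∉ Fx w D := by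
          by_contra hcon
          push Not at hcon
          exact hu (Finset.eq_univ_of_forall hcon)
        refine ⟨insert x D, (Finset.card_insert_le _ _).trans (by omega), Or.inr ?_⟩
        have h3 := latin_grow w op h1 h2 hw D x hx
        have h4 := h.resolve_left hu
        rw [pow_succ]
        omega
  obtain ⟨D, hD, h⟩ := hk (Nat.log 2 (Fintype.card I))
  have hu : Fx w D = Finset.univ := by
    by_contra hu
    obtain ⟨x, hx⟩ : ∃ x, x ∉ Fx w D := by
      by_contra hcon
      push Not at hcon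
      exact hu (Finset.eq_univ_of_forall hcon)
    have h3 := latin_grow w op h1 h2 hw D x hx
    have h4 := h.resolve_left hu
    have h5 : (Fx w (insert x D)).card ≤ Fintype.card I := Finset.card_le_univ _
    have h6 : Fintype.card I < 2 ^ (Nat.log 2 (Fintype.card I) + 1) :=
      Nat.lt_pow_succ_log_self (by norm_num) _
    rw [pow_succ] at h6
    omega
  refine tame_of_rigid hN w D ((Nat.pow_le_pow_left hD 200).trans hc) fun s hs hd => ?_
  ext x
  have hx : x ∈ Fx w D := by
    rw [hu]
    exact Finset.mem_univ _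
  exact (mem_Fx w D x).1 hx s hs hd

/-- the pointwise stabiliser of `D` in the group of automorphisms -/
def Sb {I : Type} {r : ℕ} (w : (Fin r → I) → ℕ) (D : Finset I) : Subgroup (Equiv.Perm I) where
  carrier := {s | IsAut w s ∧ ∀ d ∈ D, s d = d}
  mul_mem' := by
    rintro s t ⟨hs, hs'⟩ ⟨ht, ht'⟩
    refine ⟨fun x => ?_, fun d hd => ?_⟩
    · have h1 := hs fun j => t (x j)
      rw [ht x] at h1
      exact h1
    · rw [Equiv.Perm.mul_apply, ht' d hd, hs' d hd]
  one_mem' := ⟨fun _ => rfl, fun _ _ => rfl⟩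
  inv_mem' := by
    rintro s ⟨hs, hs'⟩
    refine ⟨fun x => ?_, fun d hd => ?_⟩
    · have h1 := hs fun j => s⁻¹ (x j)
      have h2 : (fun j => s (s⁻¹ (x j))) = x := funext fun j => Equiv.apply_symm_apply s (x j)
      rw [h2] at h1
      exact h1.symm
    · rw [Equiv.Perm.inv_eq_iff_eq, hs' d hd]

theorem mem_Sb {I : Type} {r : ℕ} (w : (Fin r → I) → ℕ) (D : Finset I) (s : Equiv.Perm I) :
    s ∈ Sb w D ↔ IsAut w s ∧ ∀ d ∈ D, s d = d := Iff.rfl

/-- structures with at most `2 ^ m` automorphisms, `m ≤ N ^ (1 / 200)`, are tame -/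
theorem tame_aut {I : Type} [Fintype I] {N r m : ℕ} (hN : 1 ≤ N) (w : (Fin r → I) → ℕ)
    (h : Nat.card {s : Equiv.Perm I // IsAut w s} ≤ 2 ^ m) (hm : m ^ 200 ≤ N) : Tame N w := by
  have h0 : Nat.card (Sb w ∅) ≤ 2 ^ m := by
    refine le_trans (le_of_eq ?_) h
    refine Nat.card_congr (Equiv.subtypeEquivRight fun s => ?_)
    rw [mem_Sb]
    simp
  have hk : ∀ k : ℕ, ∃ D : Finset I, D.card ≤ k ∧
      (Sb w D = ⊥ ∨ Nat.card (Sb w D) * 2 ^ k ≤ Nat.card (Sb w ∅)) := by
    intro k
    induction k with
    | zero => exact ⟨∅, by simp, Or.inr (by simp)⟩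
    | succ k ih =>
      obtain ⟨D, hD, hd⟩ := ih
      by_cases hb : Sb w D = ⊥
      · exact ⟨D, by omega, Or.inl hb⟩
      · have hd' := hd.resolve_left hb
        obtain ⟨s, hs, hs1⟩ : ∃ s : Equiv.Perm I, s ∈ Sb w D ∧ s ≠ 1 := by
          by_contra hcon
          push Not at hcon
          exact hb ((Subgroup.eq_bot_iff_forall _).2 hcon)
        obtain ⟨x, hx⟩ : ∃ x, s x ≠ x := by
          by_contra hcon
          push Not at hcon
          exact hs1 (Equiv.ext hcon)
        have hle : Sb w (insert x D) ≤ Sb w D := by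
          intro t ht
          rw [mem_Sb] at ht ⊢
          exact ⟨ht.1, fun d hdd => ht.2 d (Finset.mem_insert_of_mem hdd)⟩
        have hne : Sb w (insert x D) ≠ Sb w D := by
          intro heq
          rw [← heq, mem_Sb] at hs
          exact hx (hs.2 x (Finset.mem_insert_self _ _))
        have hlt : Nat.card (Sb w (insert x D)) < Nat.card (Sb w D) := by
          by_contra hcon
          exact hne (Subgroup.eq_of_le_of_card_ge hle (not_lt.1 hcon))
        obtain ⟨c, hc⟩ := Subgroup.card_dvd_of_le hle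
        have hc2 : 2 ≤ c := by
          by_contra hcon
          have : c = 0 ∨ c = 1 := by omega
          rcases this with rfl | rfl
          · rw [mul_zero] at hc
            exact absurd hc Nat.card_pos.ne'
          · rw [mul_one] at hc
            omega
        refine ⟨insert x D, (Finset.card_insert_le _ _).trans (by omega), Or.inr ?_⟩
        refine le_trans ?_ hd'
        rw [hc, pow_succ]
        calc Nat.card (Sb w (insert x D)) * (2 ^ k * 2)
            = Nat.card (Sb w (insert x D)) * 2 * 2 ^ k := by ring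
          _ ≤ Nat.card (Sb w (insert x D)) * c * 2 ^ k :=
            Nat.mul_le_mul_right _ (Nat.mul_le_mul_left _ hc2)
  obtain ⟨D, hD, hd⟩ := hk m
  have hb : Sb w D = ⊥ := by
    rcases hd with hd | hd
    · exact hd
    · have h1 : Nat.card (Sb w D) * 2 ^ m ≤ 1 * 2 ^ m := by
        rw [one_mul]
        exact hd.trans h0
      have h2 : Nat.card (Sb w D) ≤ 1 := Nat.le_of_mul_le_mul_right h1 (by positivity)
      exact Subgroup.eq_bot_of_card_le _ h2
  refine tame_of_rigid hN w D ((Nat.pow_le_pow_left hD 200).trans hm) fun s hs hdd => ?_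
  have h3 : s ∈ Sb w D := ⟨hs, hdd⟩
  rw [hb, Subgroup.mem_bot] at h3
  exact h3

end Pool.Agent.CLB
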