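import Pool.Agent.CLB.Iso
import Pool.Agent.CLA.In1

/-!
# Transport of tame structures

`GoodW F D kD e` is a set of local isomorphisms: those which differ from a fixed one by multiples of
`e`; two of them which agree on `D` differ by the `e`-th power of an automorphism fixing `D`. If the
`e`-th powers of these automorphisms act trivially on the family `Z`, then `Z` and its transport are
isomorphic.
-/

set_option autoImplicit false
set_option linter.unusedSectionVars false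

namespace Pool.Agent.CLB

open Finset Classical
open Pool.Agent.CPT hiding Tm eval Accepts
open Pool.Agent.CLA (sp sp_card sp_supp T_mulr Th_mulr ag_refl ag_anti ag_symm ag_trans ag_left
  ag_right ag_inv ag_mul_iff T_mem_TF HS_TF T_inv_mem)

variable {A I K : Type} [Fintype A] [Fintype I] [Fintype K] [Group K] [MulAction K A]

/-- a set of local isomorphisms which differ by `e`-th powers -/
structure GoodW (F : Fr A I K) (D : Finset I) (kD : K) (e : ℕ) where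
  /-- the set -/
  W : Set K
  ex : ∀ {Y : Finset I}, D ⊆ Y → Y.card ≤ F.L → ∃ c ∈ F.Th Y, c ∈ W ∧ Agr F.pl D kD c
  hom : ∀ {Y : Finset I} {c c' : K}, D ⊆ Y → Y.card ≤ F.L → c ∈ F.Th Y → c' ∈ F.Th Y →
    c ∈ W → c' ∈ W → Agr F.pl D c c' → ∃ g ∈ F.G, Trv F.pl D g ∧ Agr F.pl Y c' (c * g ^ e)

/-- the isomorphism of a family and its transport -/
theorem iso_main {F : Fr A I K} {s r e : ℕ} {X D : Finset I} {k kD : K} {Z Z' : Finset (HF A)}
    (w : (Fin r → {z : HF A // z ∈ Z}) → ℕ) (w' : (Fin r → {z : HF A // z ∈ Z'}) → ℕ)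
    (hk : k ∈ F.Th X) (hXD : X ⊆ D) (ha : Agr F.pl X k kD)
    (hL : D.card + r * s + 9 * s ≤ F.L)
    (hZ : ∀ y ∈ Z, HS F.pl F.G s y) (hG : ∀ g ∈ F.G, Trv F.pl X g → ∀ y ∈ Z, g • y ∈ Z)
    (hZ' : Z' = F.TF s Z X k) (hc : Cmp F s X k w w') (gw : GoodW F D kD e)
    (ht : ∀ g ∈ F.G, Trv F.pl D g → ∀ y ∈ Z, g ^ e • y = y) :
    ∃ φ : {z : HF A // z ∈ Z} ≃ {z : HF A // z ∈ Z'}, ∀ x, w' (fun j => φ (x j)) = w x := by
  subst hZ'
  have hspc : ∀ y : HF A, (D ∪ sp F s y).card ≤ D.card + s := fun y =>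
    (card_union_le _ _).trans (Nat.add_le_add_left (sp_card _) _)
  have hex : ∀ y : {z : HF A // z ∈ Z}, ∃ c ∈ F.Th (D ∪ sp F s y.1), c ∈ gw.W ∧
      Agr F.pl D kD c := fun y => gw.ex subset_union_left (by have := hspc y.1; omega)
  choose cc hcc hcW hcA using hex
  have hsup : ∀ y : {z : HF A // z ∈ Z}, Supp F.pl F.G (sp F s y.1) y.1 := fun y =>
    sp_supp (hZ y.1 y.2)
  have indep : ∀ (y : {z : HF A // z ∈ Z}) (Y : Finset I) (c : K), D ∪ sp F s y.1 ⊆ Y →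
      c ∈ F.Th Y → c ∈ gw.W → Agr F.pl D kD c →
      F.T s y.1 (sp F s y.1) c = F.T s y.1 (sp F s y.1) (cc y) := by
    intro y Y c hY hcY hcW' hA
    obtain ⟨g, hg, hgD, hgA⟩ := gw.hom (Y := D ∪ sp F s y.1) (c := cc y) (c' := c)
      subset_union_left (by have := hspc y.1; omega) (hcc y) (F.Th_anti hY hcY) (hcW y) hcW'
      (ag_trans (ag_symm (hcA y)) hA)
    rw [F.T_agr s (hsup y) (ag_anti subset_union_right hgA), T_mulr F s (pow_mem hg e),
      ht g hg hgD y.1 y.2]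
  have hmem : ∀ y : {z : HF A // z ∈ Z}, F.T s y.1 (sp F s y.1) (cc y) ∈ F.TF s Z X k := fun y =>
    (F.mem_TF s).2 ⟨y.1, y.2, sp F s y.1, sp_card _, hsup y, cc y,
      F.Th_anti (union_subset_union_left hXD) (hcc y), ag_trans ha (ag_anti hXD (hcA y)), rfl⟩
  have hinj : Function.Injective (fun y : {z : HF A // z ∈ Z} =>
      (⟨F.T s y.1 (sp F s y.1) (cc y), hmem y⟩ : {z : HF A // z ∈ F.TF s Z X k})) := by
    intro x y hxy
    have h1 : F.T s x.1 (sp F s x.1) (cc x) = F.T s y.1 (sp F s y.1) (cc y) :=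
      congrArg Subtype.val hxy
    have hc1 : (D ∪ sp F s x.1 ∪ sp F s y.1).card ≤ D.card + s + s :=
      (card_union_le _ _).trans (Nat.add_le_add (hspc _) (sp_card _))
    obtain ⟨c, hcY, hcW', hA⟩ := gw.ex (Y := D ∪ sp F s x.1 ∪ sp F s y.1)
      (subset_union_left.trans subset_union_left) (by omega)
    rw [← indep x _ c subset_union_left hcY hcW' hA,
      ← indep y (D ∪ sp F s x.1 ∪ sp F s y.1) c (union_subset
        (subset_union_left.trans subset_union_left) subset_union_right) hcY hcW' hA] at h1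
    have hc2 : (sp F s x.1 ∪ sp F s y.1).card ≤ s + s :=
      (card_union_le _ _).trans (Nat.add_le_add (sp_card _) (sp_card _))
    exact Subtype.ext ((F.T_inj s (hZ _ x.2) (hZ _ y.2) (hsup x) (hsup y) (by omega) (by omega)
      (F.Th_anti (union_subset_union_left subset_union_right) hcY)).1 h1)
  have hXc := card_le_card hXD
  have hcard : Fintype.card {z : HF A // z ∈ Z} = Fintype.card {z : HF A // z ∈ F.TF s Z X k} := by
    rw [Fintype.card_coe, Fintype.card_coe]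
    exact (F.card_TF s hZ hG (by omega) (by omega) hk).symm
  refine ⟨Equiv.ofBijective _ ((Fintype.bijective_iff_injective_and_card _).2 ⟨hinj, hcard⟩),
    fun x => ?_⟩
  have hUc : (univ.biUnion (fun j => sp F s (x j).1)).card ≤ r * s :=
    card_biUnion_le' fun j => sp_card _
  have hDU : (D ∪ univ.biUnion (fun j => sp F s (x j).1)).card ≤ D.card + r * s :=
    (card_union_le _ _).trans (Nat.add_le_add_left hUc _)
  obtain ⟨c, hcY, hcW', hA⟩ := gw.ex (Y := D ∪ univ.biUnion (fun j => sp F s (x j).1))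
    subset_union_left (by omega)
  refine hc x _ (fun j => sp F s (x j).1) c (fun j => sp_card _) (fun j => hsup (x j))
    (F.Th_anti (union_subset_union_left hXD) hcY) (ag_trans ha (ag_anti hXD hA)) (fun j => ?_)
  refine (indep (x j) _ c ?_ hcY hcW' hA).symm
  exact union_subset_union_right
    (subset_biUnion_of_mem (fun j => sp F s (x j).1) (mem_univ j))

/-- the family with a compatible function: the group acts by automorphisms -/
theorem cmp_inv {F : Fr A I K} {s r : ℕ} {X : Finset I} {k : K} {Z Z' : Finset (HF A)}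
    {w : (Fin r → {z : HF A // z ∈ Z}) → ℕ} {w' : (Fin r → {z : HF A // z ∈ Z'}) → ℕ}
    (hk : k ∈ F.Th X) (hL : X.card + r * s ≤ F.L) (hZ : ∀ y ∈ Z, HS F.pl F.G s y)
    (hZ' : Z' = F.TF s Z X k) (hc : Cmp F s X k w w') {g : K} (hg : g ∈ F.G) (ht : Trv F.pl X g)
    (x y : Fin r → {z : HF A // z ∈ Z}) (hxy : ∀ j, (y j).1 = g • (x j).1) : w y = w x := by
  subst hZ'
  have hsup : ∀ y : {z : HF A // z ∈ Z}, Supp F.pl F.G (sp F s y.1) y.1 := fun y =>
    sp_supp (hZ y.1 y.2)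
  have hUc : (univ.biUnion (fun j => sp F s (x j).1)).card ≤ r * s :=
    card_biUnion_le' fun j => sp_card _
  have hXU := card_union_le X (univ.biUnion (fun j => sp F s (x j).1))
  obtain ⟨k', hk', ha⟩ := F.Th_ext (Y := X ∪ univ.biUnion (fun j => sp F s (x j).1))
    subset_union_left (by omega) hk
  have hsub : ∀ j, sp F s (x j).1 ⊆ univ.biUnion (fun j => sp F s (x j).1) := fun j =>
    subset_biUnion_of_mem (fun j => sp F s (x j).1) (mem_univ j)
  have hmem : ∀ j, F.T s (x j).1 (sp F s (x j).1) k' ∈ F.TF s Z X k := fun j =>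
    (F.mem_TF s).2 ⟨(x j).1, (x j).2, _, sp_card _, hsup (x j), k',
      F.Th_anti (union_subset_union_right (hsub j)) hk', ha, rfl⟩
  have h1 := hc x (fun j => ⟨_, hmem j⟩) (fun j => sp F s (x j).1) k' (fun j => sp_card _)
    (fun j => hsup (x j)) hk' ha (fun j => rfl)
  have hgi : Trv F.pl X g⁻¹ := fun a ha => by rw [inv_smul_eq_iff, ht a ha]
  have h2 := hc y (fun j => ⟨_, hmem j⟩) (fun j => sp F s (x j).1) (k' * g⁻¹) (fun j => sp_card _)
    (fun j => by rw [hxy j]; exact F.supp_smul (hsup (x j)) g)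
    (Th_mulr F (inv_mem hg) hk') (ag_trans ha (ag_mul_iff.2 hgi)) (fun j => by
      rw [hxy j]
      exact (F.T_smul s _ _ _ hg).symm)
  rw [← h1, ← h2]

/-- the permutation of the family given by an element of the group -/
noncomputable def perm {X : Finset I} {F : Fr A I K} {Z : Finset (HF A)}
    (hG : ∀ g ∈ F.G, Trv F.pl X g → ∀ y ∈ Z, g • y ∈ Z) (g : K) (hg : g ∈ F.G)
    (ht : Trv F.pl X g) : Equiv.Perm {z : HF A // z ∈ Z} where
  toFun z := ⟨g • z.1, hG g hg ht z.1 z.2⟩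
  invFun z := ⟨g⁻¹ • z.1, hG g⁻¹ (inv_mem hg) (fun a ha => by rw [inv_smul_eq_iff, ht a ha]) z.1 z.2⟩
  left_inv z := Subtype.ext (inv_smul_smul g z.1)
  right_inv z := Subtype.ext (smul_inv_smul g z.1)

theorem perm_pow {X : Finset I} {F : Fr A I K} {Z : Finset (HF A)}
    (hG : ∀ g ∈ F.G, Trv F.pl X g → ∀ y ∈ Z, g • y ∈ Z) (g : K) (hg : g ∈ F.G)
    (ht : Trv F.pl X g) (m : ℕ) (z : {z : HF A // z ∈ Z}) :
    (((perm hG g hg ht) ^ m) z).1 = g ^ m • z.1 := by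
  induction m with
  | zero => rw [pow_zero, pow_zero, one_smul]; rfl
  | succ m ih =>
    rw [pow_succ', pow_succ', mul_smul, Equiv.Perm.mul_apply]
    show g • (((perm hG g hg ht) ^ m) z).1 = _
    rw [ih]

/-- powers of the automorphisms which fix the base act trivially on a tame structure -/
theorem tame_pow {F : Fr A I K} {s r N e0 a : ℕ} {X D : Finset I} {k : K} {Z Z' : Finset (HF A)}
    {w : (Fin r → {z : HF A // z ∈ Z}) → ℕ} {w' : (Fin r → {z : HF A // z ∈ Z'}) → ℕ}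
    (hk : k ∈ F.Th X) (hL : X.card + r * s ≤ F.L) (hZ : ∀ y ∈ Z, HS F.pl F.G s y)
    (hG : ∀ g ∈ F.G, Trv F.pl X g → ∀ y ∈ Z, g • y ∈ Z)
    (hZ' : Z' = F.TF s Z X k) (hc : Cmp F s X k w w') (hab : ∀ g ∈ F.G, g ^ (2 ^ a) = 1)
    (he : ∀ j, (2 ^ j) ^ 200 ≤ N → j ≤ e0) (hXD : X ⊆ D) {B : Finset {z : HF A // z ∈ Z}}
    (hB : ∀ σ : Equiv.Perm {z : HF A // z ∈ Z}, IsAut w σ → (∀ d ∈ B, σ d = d) →
      ∀ j : ℕ, orderOf σ = 2 ^ j → (2 ^ j) ^ 200 ≤ N)
    (hBD : ∀ d ∈ B, sp F s d.1 ⊆ D) {g : K} (hg : g ∈ F.G) (ht : Trv F.pl D g) :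
    ∀ y ∈ Z, g ^ (2 ^ e0) • y = y := by
  have htX : Trv F.pl X g := fun a ha => ht a (ha.trans hXD)
  intro y hy
  set σ := perm hG g hg htX with hσ
  have h1 : σ ^ (2 ^ a) = 1 := by
    ext z
    rw [hσ, perm_pow, hab g hg, one_smul]
    rfl
  obtain ⟨j, -, hj⟩ := (Nat.dvd_prime_pow Nat.prime_two).1 (orderOf_dvd_of_pow_eq_one h1)
  have h2 := he j (hB σ (fun x => cmp_inv hk hL hZ hZ' hc hg htX x _ fun j => rfl)
    (fun d hd => Subtype.ext ((sp_supp (hZ d.1 d.2)).1 g hg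
      (fun a ha => ht a (ha.trans (hBD d hd))))) j hj)
  have h3 : σ ^ (2 ^ e0) = 1 := by
    apply orderOf_dvd_iff_pow_eq_one.1
    rw [hj]
    exact pow_dvd_pow 2 h2
  have h4 := perm_pow hG g hg htX (2 ^ e0) ⟨y, hy⟩
  rw [← hσ, h3] at h4
  exact h4.symm

/-- the isomorphism, if the first structure is tame -/
theorem iso_tame {F : Fr A I K} {s r N e0 a m : ℕ} {X : Finset I} {k : K} {Z Z' : Finset (HF A)}
    (w : (Fin r → {z : HF A // z ∈ Z}) → ℕ) (w' : (Fin r → {z : HF A // z ∈ Z'}) → ℕ)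
    (hk : k ∈ F.Th X) (hL : X.card + m * s + r * s + 9 * s ≤ F.L)
    (hZ : ∀ y ∈ Z, HS F.pl F.G s y) (hG : ∀ g ∈ F.G, Trv F.pl X g → ∀ y ∈ Z, g • y ∈ Z)
    (hZ' : Z' = F.TF s Z X k) (hc : Cmp F s X k w w') (hab : ∀ g ∈ F.G, g ^ (2 ^ a) = 1)
    (hgw : ∀ (D : Finset I) (kD : K), D.card ≤ F.L → kD ∈ F.Th D →
      Nonempty (GoodW F D kD (2 ^ e0)))
    (hm : ∀ d, d ^ 200 ≤ N → d ≤ m) (he : ∀ j, (2 ^ j) ^ 200 ≤ N → j ≤ e0)
    (hT : Tame N w) :
    ∃ φ : {z : HF A // z ∈ Z} ≃ {z : HF A // z ∈ Z'}, ∀ x, w' (fun j => φ (x j)) = w x := by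
  obtain ⟨B, hBc, hB⟩ := hT
  have hBm := hm _ hBc
  set D := X ∪ B.biUnion (fun d => sp F s d.1) with hD
  have hDc : D.card ≤ X.card + m * s := by
    refine (card_union_le _ _).trans (Nat.add_le_add_left ?_ _)
    refine card_biUnion_le.trans ?_
    calc ∑ d ∈ B, (sp F s d.1).card ≤ ∑ _d ∈ B, s := Finset.sum_le_sum fun d _ => sp_card _
      _ = B.card * s := by rw [sum_const, smul_eq_mul]
      _ ≤ m * s := Nat.mul_le_mul_right s hBm
  have hXD : X ⊆ D := subset_union_left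
  obtain ⟨kD, hkD, ha⟩ := F.Th_ext hXD (by omega) hk
  obtain ⟨gw⟩ := hgw D kD (by omega) hkD
  refine iso_main w w' hk hXD ha (by omega) hZ hG hZ' hc gw fun g hg ht => ?_
  exact tame_pow hk (by omega) hZ hG hZ' hc hab he hXD hB (fun d hd =>
    (subset_biUnion_of_mem (fun d : {z : HF A // z ∈ Z} => sp F s d.1) hd).trans
      subset_union_right) hg ht

/-- the inverse transport of the transport -/
theorem TF_inv {F : Fr A I K} {s : ℕ} {X : Finset I} {k : K} {Z : Finset (HF A)}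
    (hk : k ∈ F.Th X) (hL : X.card + 9 * s ≤ F.L) (hZ : ∀ y ∈ Z, HS F.pl F.G s y)
    (hG : ∀ g ∈ F.G, Trv F.pl X g → ∀ y ∈ Z, g • y ∈ Z) :
    (∀ g ∈ F.G, Trv F.pl X g → ∀ y ∈ F.TF s Z X k, g • y ∈ F.TF s Z X k) ∧
      Z = F.TF s (F.TF s Z X k) X k⁻¹ := by
  have h2 : ∀ g ∈ F.G, Trv F.pl X g → ∀ y ∈ F.TF s Z X k, g • y ∈ F.TF s Z X k := by
    intro g hg hgN w hw
    obtain ⟨y, hy, Y, hY, hY', r, hr, hr', rfl⟩ := (F.mem_TF s).1 hw
    rw [F.smul_T s y Y r hg, F.mem_TF]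
    refine ⟨y, hy, Y, hY, hY', g * r, F.Th_mul hg hr, ?_, rfl⟩
    intro a ha
    rw [mul_smul, hr' a ha]
    exact (hgN _ (by rw [F.pl_smul]; exact ha)).symm
  have h3 : ∀ y ∈ F.TF s Z X k, HS F.pl F.G s y := fun y hy => HS_TF F s hZ (by omega) hy
  refine ⟨h2, ?_⟩
  refine (Finset.eq_of_subset_of_card_le ?_ ?_).symm
  · intro z hz
    obtain ⟨w, hw, C, hC, hCs, m, hm, hm', rfl⟩ := (F.mem_TF s).1 hz
    have hXC : (X ∪ C).card ≤ X.card + s :=
      (card_union_le _ _).trans (Nat.add_le_add_left hC _)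
    have hCX : C ∪ (X ∪ C) = X ∪ C := union_eq_right.2 subset_union_right
    have h4 := (T_inv_mem F s hZ hG (by omega) hw (D := X ∪ C) subset_union_left
      (F.supp_mono hCs subset_union_right) (F.Th_inv hm) (by
        have := ag_inv F hm'
        rwa [inv_inv] at this) (by omega)).1
    rw [inv_inv] at h4
    rwa [F.T_indep s hCs (F.supp_mono hCs (subset_union_right (s₁ := X)))
      (by rw [hCX]; omega) (by rw [hCX]; exact hm)]
  · rw [F.card_TF s h3 h2 (by omega) (by omega) (F.Th_inv hk),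
      F.card_TF s hZ hG (by omega) (by omega) hk]

/-- compatibility is symmetric -/
theorem Cmp.symm {F : Fr A I K} {s r : ℕ} {X : Finset I} {k : K} {Z Z' : Finset (HF A)}
    {w : (Fin r → {z : HF A // z ∈ Z}) → ℕ} {w' : (Fin r → {z : HF A // z ∈ Z'}) → ℕ}
    (hL : X.card + 9 * s ≤ F.L) (hZ : ∀ y ∈ Z, HS F.pl F.G s y) (hZ' : Z' = F.TF s Z X k)
    (hc : Cmp F s X k w w') : Cmp F s X k⁻¹ w' w := by
  subst hZ'
  intro x x' W k' hW hWs hk' ha hx
  have hsub : ∀ j, W j ⊆ X ∪ univ.biUnion W := fun j =>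
    (subset_biUnion_of_mem W (mem_univ j)).trans subset_union_right
  refine (hc x' x W k'⁻¹ hW (fun j => ?_) (F.Th_inv hk') (by
    have := ag_inv F ha
    rwa [inv_inv] at this) (fun j => ?_)).symm
  · rw [hx j]
    exact F.supp_T s _ (hWs j)
  · rw [hx j]
    exact (F.T_inv s (HS_TF F s hZ (by omega) (x j).2) (hWs j) (by omega)
      (by have := hW j; omega) (F.Th_anti (hsub j) hk')).symm

/-- the isomorphism, if one of the structures is tame -/
theorem iso_or {F : Fr A I K} {s r N e0 a m : ℕ} {X : Finset I} {k : K} {Z : Finset (HF A)}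
    (w : (Fin r → {z : HF A // z ∈ Z}) → ℕ)
    (w' : (Fin r → {z : HF A // z ∈ F.TF s Z X k}) → ℕ)
    (hk : k ∈ F.Th X) (hL : X.card + m * s + r * s + 9 * s ≤ F.L)
    (hZ : ∀ y ∈ Z, HS F.pl F.G s y) (hG : ∀ g ∈ F.G, Trv F.pl X g → ∀ y ∈ Z, g • y ∈ Z)
    (hc : Cmp F s X k w w') (hab : ∀ g ∈ F.G, g ^ (2 ^ a) = 1)
    (hgw : ∀ (D : Finset I) (kD : K), D.card ≤ F.L → kD ∈ F.Th D →
      Nonempty (GoodW F D kD (2 ^ e0)))
    (hm : ∀ d, d ^ 200 ≤ N → d ≤ m) (he : ∀ j, (2 ^ j) ^ 200 ≤ N → j ≤ e0)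
    (hT : Tame N w ∨ Tame N w') :
    ∃ φ : {z : HF A // z ∈ Z} ≃ {z : HF A // z ∈ F.TF s Z X k},
      ∀ x, w' (fun j => φ (x j)) = w x := by
  rcases hT with hT | hT
  · exact iso_tame w w' hk hL hZ hG rfl hc hab hgw hm he hT
  · obtain ⟨h1, h2⟩ := TF_inv hk (by omega) hZ hG
    obtain ⟨φ, hφ⟩ := iso_tame w' w (F.Th_inv hk) hL
      (fun y hy => HS_TF F s hZ (by omega) hy) h1 h2 (hc.symm (by omega) hZ rfl) hab hgw hm he hT
    refine ⟨φ.symm, fun x => ?_⟩
    rw [← hφ]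
    simp only [Equiv.apply_symm_apply]

/-- the frame with a smaller bound -/
def reL (F : Fr A I K) (L' : ℕ) (h : L' ≤ F.L) : Fr A I K where
  pl := F.pl
  pl_smul := F.pl_smul
  G := F.G
  norm := F.norm
  Th := F.Th
  L := L'
  Th_anti := F.Th_anti
  Th_inv := F.Th_inv
  Th_mul := F.Th_mul
  Th_ext := fun hXY hY hk => F.Th_ext hXY (hY.trans h) hk
  Th_hom := fun hX hk hk' => F.Th_hom (hX.trans h) hk hk'

theorem isoP_reL {F : Fr A I K} {s N e0 a m L' : ℕ} (h : L' ≤ F.L) (hL : L' + m * s ≤ F.L)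
    (hab : ∀ g ∈ F.G, g ^ (2 ^ a) = 1)
    (hgw : ∀ (D : Finset I) (kD : K), D.card ≤ F.L → kD ∈ F.Th D →
      Nonempty (GoodW F D kD (2 ^ e0)))
    (hm : ∀ d, d ^ 200 ≤ N → d ≤ m) (he : ∀ j, (2 ^ j) ^ 200 ≤ N → j ≤ e0) :
    IsoP (reL F L' h) s 9 N := by
  intro X k Z r w w' hk hX hZ hG hc hT
  have hX' : X.card + (r + 9) * s ≤ L' := hX
  rw [add_mul] at hX'
  exact iso_or (F := F) (a := a) (e0 := e0) (m := m) w w' hk (by omega) hZ hG hc hab hgw hm he hT

end Pool.Agent.CLB
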